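import Pool.Agent.GF.St
import Pool.Agent.HZ.ClfM

/-!
# Clifford theory for local systems on discs with fixed and moving punctures

Adapted copy of `HZ/Final`, `HZ/ClfL`, `HZ/ClfM` (module Clf, helper89).
-/

set_option autoImplicit false

namespace Pool.Agent.GF

open Matrix Module Pool.Agent.HZ

variable {r : ℕ}

/-- among more than `N` moving punctures with a property one is not in the exceptional set -/
theorem Clf_pick {n N : ℕ} (Φ S : Finset (Fin n)) (hS : S.card ≤ N) (p : Fin n → Prop)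
    (hp : N < Nat.card {i | i ∉ Φ ∧ p i}) : ∃ i, p i ∧ i ∉ Φ ∪ S := by
  by_contra hcon
  push Not at hcon
  have h1 : {i | i ∉ Φ ∧ p i} ⊆ (S : Set (Fin n)) := by
    intro i hi
    rcases Finset.mem_union.1 (hcon i hi.2) with h | h
    · exact absurd h hi.1
    · exact h
  have h2 : Nat.card {i | i ∉ Φ ∧ p i} ≤ Nat.card (S : Set (Fin n)) :=
    Nat.card_mono (Finset.finite_toSet S) h1
  have h3 : Nat.card (S : Set (Fin n)) = S.card := by
    rw [Nat.card_eq_fintype_card]
    exact Fintype.card_coe S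
  omega

/-- the image of the normal subgroup generated by the loops around almost all moving punctures is
finite -/
theorem Clf_fin (hMain : St_Main) (r : ℕ) : ∃ N : ℕ, ∀ (n : ℕ) (Φ : Finset (Fin n))
    (ρ : FreeGroup (Fin n) →* GL (Fin r) ℂ), HypQ Φ ρ → Irr ρ.range →
    ∃ S : Finset (Fin n), S.card ≤ N ∧ Disjoint Φ S ∧ Finite ((KK (Φ ∪ S)).map ρ) := by
  obtain ⟨N, hN⟩ := hMain r
  refine ⟨N, ?_⟩
  intro n Φ ρ hρ hirr
  obtain ⟨S, H, hS, hdis, hH, hnorm, hgen, hroot⟩ := hN n Φ ρ hρ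
  have hfg : (ρ.range).FG := by
    have hrange : Subgroup.closure {x | x ∈ (std n).map ρ} = ρ.range := by
      have h1 : {x | x ∈ (std n).map ρ} = ρ '' {x | x ∈ std n} := by
        ext x
        simp
      rw [h1, ← MonoidHom.map_closure, closure_std, MonoidHom.range_eq_map]
    rw [← hrange, Subgroup.fg_iff]
    exact ⟨_, rfl, List.finite_toSet _⟩
  have hfin : Finite H := finite_of_roots ρ.range H hfg hH hnorm hroot (cred_of_irr hirr)
  have hle : KK (Φ ∪ S) ≤ H.comap ρ := by
    have hn : (H.comap ρ).Normal := by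
      refine ⟨fun x hx y => ?_⟩
      rw [Subgroup.mem_comap] at hx ⊢
      rw [map_mul, map_mul, map_inv]
      exact hnorm _ ⟨y, rfl⟩ _ hx
    refine Subgroup.normalClosure_le_normal ?_
    rintro x ⟨i, hi, rfl⟩
    exact hgen i hi
  refine ⟨S, hS, hdis, ?_⟩
  have h2 : (KK (Φ ∪ S)).map ρ ≤ H := Subgroup.map_le_iff_le_comap.2 hle
  exact Finite.of_injective _ (Subgroup.inclusion_injective h2)

/-- **Clf.** -/
theorem thm_Clf (hMain : St_Main) : St_Clf := by
  intro r hr
  obtain ⟨N, hN⟩ := Clf_fin hMain r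
  refine ⟨N, ?_⟩
  intro n Φ ρ hρ hirr
  obtain ⟨S, hS, hdis, hfin⟩ := hN n Φ ρ hρ hirr
  obtain ⟨H, d, e, α, β, ι, h1, h2, h3, h4, h5, h6, h7⟩ :=
    clf_of_finite hr ρ hirr (Φ ∪ S) hfin
  have hd : 0 < d := by
    rcases Nat.eq_zero_or_pos d with h | h
    · rw [h, Nat.mul_zero, Nat.mul_zero] at h2
      omega
    · exact h
  have hidx : H.index ≠ 0 := by
    intro h
    rw [h, Nat.zero_mul] at h2
    omega
  have hmem : ∀ i ∉ Φ ∪ S, FreeGroup.of i ∈ KK (Φ ∪ S) := fun i hi =>
    Subgroup.subset_normalClosure ⟨i, hi, rfl⟩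
  have hmul : ∀ i ∉ Φ ∪ S, ∀ z : ℂ, e ∣ finrank ℂ (Module.End.eigenspace
      (Matrix.mulVecLin (ρ (FreeGroup.of i) : Matrix (Fin r) (Fin r) ℂ)) z) := by
    intro i hi z
    exact mult_dvd ρ H α β ι hr h2 _ h1 h5 h7 h6 _ (hmem i hi) z
  have hlast : N < Nat.card {i | i ∉ Φ ∧ ∀ z : ℂ,
      (ρ (FreeGroup.of i) : Matrix (Fin r) (Fin r) ℂ) ≠ z • 1} → 2 * e ≤ r := by
    intro hc
    -- otherwise all elements of the normal subgroup are scalar
    by_contra hcon
    obtain ⟨i, hi, hiS⟩ := Clf_pick Φ S hS _ hc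
    have he : 0 < e := by
      rcases Nat.eq_zero_or_pos e with h | h
      · rw [h, Nat.zero_mul, Nat.mul_zero] at h2
        omega
      · exact h
    have h9 : H.index * d = 1 := by
      have h10 : (H.index * d) * e = r := by rw [← h2]; ring
      have h11 : 0 < H.index * d := Nat.mul_pos (Nat.pos_of_ne_zero hidx) hd
      by_contra h12
      have h13 : 2 ≤ H.index * d := by omega
      have h14 : 2 * e ≤ (H.index * d) * e := Nat.mul_le_mul_right e h13
      omega
    -- the component is everything and the element acts by a scalar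
    have h10 : H.index = 1 := Nat.dvd_one.1 (Dvd.intro _ h9)
    have h11 : d = 1 := by rw [h10, Nat.one_mul] at h9; exact h9
    subst h11
    have h12 : e = r := by rw [h10, Nat.mul_one, Nat.one_mul] at h2; exact h2
    have hsurj : Function.Surjective ι := by
      refine (LinearMap.injective_iff_surjective_of_finrank_eq_finrank ?_).1 h4
      rw [Module.finrank_fin_fun, Module.finrank_fintype_fun_eq_card, Fintype.card_prod,
        Fintype.card_fin, Fintype.card_fin, h12, Nat.mul_one]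
    obtain ⟨h, hh⟩ : ∃ h : H, (h : FreeGroup (Fin n)) = FreeGroup.of i := ⟨⟨_, h1 (hmem i hiS)⟩, rfl⟩
    refine hi ((α h : Matrix (Fin 1) (Fin 1) ℂ) 0 0) ?_
    have h13 : (α h : Matrix (Fin 1) (Fin 1) ℂ) =
        ((α h : Matrix (Fin 1) (Fin 1) ℂ) 0 0) • (1 : Matrix (Fin 1) (Fin 1) ℂ) := by
      ext i j
      rw [Subsingleton.elim i 0, Subsingleton.elim j 0, Matrix.smul_apply, Matrix.one_apply_eq,
        smul_eq_mul, mul_one]
    apply Matrix.toLin'.injective
    apply LinearMap.ext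
    intro v
    obtain ⟨w, rfl⟩ := hsurj v
    rw [Matrix.toLin'_apply, Matrix.toLin'_apply, ← hh, h5,
      h6 h (by rw [hh]; exact hmem i hiS), Units.val_one]
    rw [h13, Matrix.kronecker_smul, Matrix.one_kronecker_one, Matrix.smul_mulVec,
      Matrix.one_mulVec, map_smul, ← h13, Matrix.smul_mulVec, Matrix.one_mulVec]
  refine ⟨?_, S, H, d, e, α, β, hS, hdis, ⟨h2, ι, h4, h5, h7⟩, h3, ?_, ?_, hmul, hlast⟩
  · intro hc
    have he1 : e = 1 := by
      have hdvd : e ∣ r := by
        rw [← h2]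
        exact Dvd.dvd.mul_left (Dvd.intro _ rfl) _
      rcases hc with hc | ⟨hp, hc⟩
      · obtain ⟨i, ⟨z, hz⟩, hiS⟩ := Clf_pick Φ S hS _ hc
        have h9 := Nat.dvd_gcd (hmul i hiS z) hdvd
        rw [hz] at h9
        exact Nat.dvd_one.1 h9
      · rcases (Nat.dvd_prime hp).1 hdvd with h9 | h9
        · exact h9
        · exfalso
          have h10 := hlast hc
          omega
    subst he1
    exact virt_of_one ρ H α β ι hidx h3 h5 h7
  · intro x hx
    exact ⟨⟨x, h1 hx⟩, h6 ⟨x, h1 hx⟩ hx, rfl⟩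
  · intro h g γ k hγ hh
    have hcard : 0 < Nat.card α.range := Nat.card_pos
    refine quasi_second hd (ρ h : Matrix (Fin r) (Fin r) ℂ) ι h4 (β h) (α h) (h5 h) hcard ?_ ?_
    · have h8 : (⟨α h, h, rfl⟩ : α.range) ^ Nat.card α.range = 1 := pow_card_eq_one'
      exact congrArg Subtype.val h8
    · intro z hz
      rw [hh] at hz
      exact quasi_conj_pow ρ g γ k (hρ γ hγ) z hz

end Pool.Agent.GF
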