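import Pool.Agent.GF.St
import Pool.Agent.HZ.RedD

/-!
# GF, module D1: restriction to a subdisc which contains the fixed punctures
-/

set_option autoImplicit false

namespace Pool.Agent.GF

open Matrix Pool.Agent.HZ

/-- the images of the standard generators of the subdisc -/
theorem d1_lstd_inc {n : ℕ} (Φ T : Finset (Fin n)) :
    mapv (inc T) (lstd (res Φ T)) =
      (T.sort).map fun i => (decide (i ∉ Φ), FreeGroup.of i) := by
  rw [← Finset.listMap_orderEmbOfFin_finRange T rfl, List.map_map, mapv, lstd, List.map_map]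
  refine List.map_congr_left fun j _ => ?_
  simp [inc, res]

/-- the standard generators of a subdisc which contains the fixed punctures are the beginning of a
list in the orbit -/
theorem d1_pre {n : ℕ} {Φ T : Finset (Fin n)} (h : Φ ⊆ T) :
    MPre (lstd Φ) (mapv (inc T) (lstd (res Φ T))) := by
  classical
  let p : Bool × FreeGroup (Fin n) → Bool := fun x =>
    !x.1 || decide (∃ i ∈ T, x.2 = FreeGroup.of i)
  have h1 : mapv (inc T) (lstd (res Φ T)) = (lstd Φ).filter p := by
    rw [d1_lstd_inc, sort_eq_filter, lstd, List.filter_map]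
    congr 1
    refine List.filter_congr fun i _ => ?_
    by_cases hi : i ∈ T
    · have h2 : ∃ j ∈ T, FreeGroup.of i = FreeGroup.of j := ⟨i, hi, rfl⟩
      simp [p, hi, h2]
    · have hi' : i ∉ Φ := fun hc => hi (h hc)
      have h2 : ¬∃ j ∈ T, FreeGroup.of i = FreeGroup.of j := by
        rintro ⟨j, hj, hij⟩
        rw [FreeGroup.of_injective hij] at hi
        exact hi hj
      simp only [p, Function.comp_apply, h2, hi, hi', not_false_eq_true, decide_true,
        decide_false, Bool.not_true, Bool.or_false]
  rw [h1]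
  refine MPre.filter _ p fun x hx => ?_
  simp [p, hx]

/-- **D1** -/
theorem thm_D1 : St_D1 := by
  intro r n Φ T ρ hT h
  classical
  obtain ⟨B, hB⟩ := d1_pre hT
  have hm : T.card ≤ n := by
    have := T.card_le_univ
    rwa [Fintype.card_fin] at this
  let ι : FreeGroup (Fin T.card) →* FreeGroup (Fin n) := FreeGroup.map (Fin.castLE hm)
  have key : ∀ β' : FreeGroup (Fin T.card) →* FreeGroup (Fin T.card), IsGBraid (res Φ T) β' →
      ∃ β : FreeGroup (Fin n) →* FreeGroup (Fin n), IsGBraid Φ β ∧
        ∀ w, β (ι w) = inc T (β' w) := by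
    rintro β' ⟨L', hL', hv⟩
    have h1 : MReach (lstd Φ) (mapv (inc T) L' ++ B) :=
      hB.trans ((MReach.map (inc T) hL').append_right B)
    have hlen : (vals (mapv (inc T) L' ++ B)).length = n := by
      have h2 := h1.length_eq
      rw [vals, List.length_map, h2]
      simp [lstd]
    obtain ⟨β, hL⟩ := exists_hom (vals (mapv (inc T) L' ++ B)) hlen
    refine ⟨β, ⟨_, h1, hL.symm⟩, ?_⟩
    rw [vals_append, vals_mapv, hv] at hL
    have h2 : β.comp ι = (inc T).comp β' := by
      refine FreeGroup.ext_hom _ _ fun i => ?_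
      rw [List.map_map, std_map', std, List.map_map] at hL
      have h3 : (List.ofFn fun i => β (FreeGroup.of i))[(i : ℕ)]? =
          (List.map ((⇑(inc T) ∘ ⇑β') ∘ FreeGroup.of) (List.finRange T.card) ++
            vals B)[(i : ℕ)]? := by
        rw [hL]
      have hi : (i : ℕ) < n := lt_of_lt_of_le i.2 hm
      rw [List.getElem?_append_left (by simp)] at h3
      have h4 : β (FreeGroup.of (⟨i, hi⟩ : Fin n)) = inc T (β' (FreeGroup.of i)) := by
        simpa [hi] using h3
      rw [MonoidHom.comp_apply, MonoidHom.comp_apply, ← h4]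
      simp only [ι, FreeGroup.map.of]
      rfl
    intro w
    exact DFunLike.congr_fun h2 w
  have himg := Set.Finite.image
    (fun (χ : FreeGroup (Fin n) → ℂ) (w : FreeGroup (Fin T.card)) => χ (ι w)) h
  refine himg.subset ?_
  rintro _ ⟨β', hβ', rfl⟩
  obtain ⟨β, hβ, hβw⟩ := key β' hβ'
  refine ⟨_, ⟨β, hβ, rfl⟩, ?_⟩
  funext w
  simp only [hβw, MonoidHom.comp_apply]

end Pool.Agent.GF
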