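import Pool.Agent.GF.St
import Pool.Agent.HZ.RedD

/-!
# D2: reduction modulo a finite normal subgroup

Moving entries equal to one do not matter for the mixed braid moves.
-/

set_option autoImplicit false

namespace Pool.Agent.GF

open Matrix Module Pool.Agent.HZ

section filter
variable {G : Type*} [Group G]

open Classical in
/-- the fixed entries and the entries different from one -/
private noncomputable def D2nt (L : List (Bool × G)) : List (Bool × G) :=
  L.filter fun x => !x.1 || decide (x.2 ≠ 1)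

private theorem D2nt_append (L M : List (Bool × G)) : D2nt (L ++ M) = D2nt L ++ D2nt M :=
  List.filter_append ..

private theorem D2nt_drop {a : Bool × G} (h : a.1 = true) (h1 : a.2 = 1) (L : List (Bool × G)) :
    D2nt (a :: L) = D2nt L := by
  simp [D2nt, h, h1]

private theorem D2nt_keep {a : Bool × G} (h : ¬ (a.1 = true ∧ a.2 = 1)) (L : List (Bool × G)) :
    D2nt (a :: L) = a :: D2nt L := by
  rw [D2nt, List.filter_cons_of_pos]
  · rfl
  · by_cases h1 : a.1 = true <;> by_cases h2 : a.2 = 1 <;> simp_all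

private theorem D2nt_move {L L' : List (Bool × G)} (h : MMove L L') :
    MReach (D2nt L) (D2nt L') := by
  cases h with
  | r P S a b h =>
    rw [D2nt_append, D2nt_append]
    by_cases ha : a.1 = true ∧ a.2 = 1
    · have ha' : (a.1, b.2⁻¹ * a.2 * b.2).1 = true ∧ (a.1, b.2⁻¹ * a.2 * b.2).2 = 1 := by
        refine ⟨ha.1, ?_⟩
        show b.2⁻¹ * a.2 * b.2 = 1
        rw [ha.2]
        group
      rw [D2nt_drop ha.1 ha.2]
      by_cases hb : b.1 = true ∧ b.2 = 1
      · rw [D2nt_drop hb.1 hb.2, D2nt_drop hb.1 hb.2, D2nt_drop ha'.1 ha'.2]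
        exact MReach.refl _
      · rw [D2nt_keep hb, D2nt_keep hb, D2nt_drop ha'.1 ha'.2]
        exact MReach.refl _
    · by_cases hb : b.1 = true ∧ b.2 = 1
      · have e : (a.1, b.2⁻¹ * a.2 * b.2) = a := by
          rw [hb.2]
          simp
        rw [e, D2nt_keep ha, D2nt_drop hb.1 hb.2, D2nt_drop hb.1 hb.2, D2nt_keep ha]
        exact MReach.refl _
      · have ha' : ¬ ((a.1, b.2⁻¹ * a.2 * b.2).1 = true ∧ (a.1, b.2⁻¹ * a.2 * b.2).2 = 1) := by
          rintro ⟨h1, h2⟩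
          refine ha ⟨h1, ?_⟩
          have h3 : a.2 = b.2 * (b.2⁻¹ * a.2 * b.2) * b.2⁻¹ := by group
          rw [h3]
          rw [show b.2⁻¹ * a.2 * b.2 = 1 from h2]
          group
        rw [D2nt_keep ha, D2nt_keep hb, D2nt_keep hb, D2nt_keep ha']
        exact MReach.of_move (MMove.r _ _ _ _ h)
  | l P S a b h =>
    rw [D2nt_append, D2nt_append]
    by_cases hb : b.1 = true ∧ b.2 = 1
    · have hb' : (b.1, a.2 * b.2 * a.2⁻¹).1 = true ∧ (b.1, a.2 * b.2 * a.2⁻¹).2 = 1 := by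
        refine ⟨hb.1, ?_⟩
        show a.2 * b.2 * a.2⁻¹ = 1
        rw [hb.2]
        group
      rw [D2nt_drop hb'.1 hb'.2]
      by_cases ha : a.1 = true ∧ a.2 = 1
      · rw [D2nt_drop ha.1 ha.2, D2nt_drop ha.1 ha.2, D2nt_drop hb.1 hb.2]
        exact MReach.refl _
      · rw [D2nt_keep ha, D2nt_keep ha, D2nt_drop hb.1 hb.2]
        exact MReach.refl _
    · by_cases ha : a.1 = true ∧ a.2 = 1
      · have e : (b.1, a.2 * b.2 * a.2⁻¹) = b := by
          rw [ha.2]
          simp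
        rw [e, D2nt_drop ha.1 ha.2, D2nt_keep hb, D2nt_keep hb, D2nt_drop ha.1 ha.2]
        exact MReach.refl _
      · have hb' : ¬ ((b.1, a.2 * b.2 * a.2⁻¹).1 = true ∧ (b.1, a.2 * b.2 * a.2⁻¹).2 = 1) := by
          rintro ⟨h1, h2⟩
          refine hb ⟨h1, ?_⟩
          have h3 : b.2 = a.2⁻¹ * (a.2 * b.2 * a.2⁻¹) * a.2 := by group
          rw [h3]
          rw [show a.2 * b.2 * a.2⁻¹ = 1 from h2]
          group
        rw [D2nt_keep ha, D2nt_keep hb, D2nt_keep hb', D2nt_keep ha]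
        exact MReach.of_move (MMove.l _ _ _ _ h)

private theorem D2nt_reach {L L' : List (Bool × G)} (h : MReach L L') :
    MReach (D2nt L) (D2nt L') := by
  induction h with
  | refl => exact MReach.refl _
  | tail _ hs ih => exact ih.trans (D2nt_move hs)

end filter

private theorem D2std {n : ℕ} {Q : Type*} [Group Q] (f : FreeGroup (Fin n) →* Q)
    (Φ T : Finset (Fin n)) (hT : ∀ i, i ∈ T ↔ i ∈ Φ ∨ f (FreeGroup.of i) ≠ 1) :
    D2nt (mapv f (lstd Φ)) = mapv (f.comp (inc T)) (lstd (res Φ T)) := by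
  classical
  have e1 : mapv f (lstd Φ) = (List.finRange n).map fun i => (decide (i ∉ Φ), f (FreeGroup.of i)) := by
    simp [mapv, lstd, Function.comp_def]
  have e2 : mapv (f.comp (inc T)) (lstd (res Φ T)) =
      T.sort.map fun i => (decide (i ∉ Φ), f (FreeGroup.of i)) := by
    rw [← Finset.listMap_orderEmbOfFin_finRange T rfl, List.map_map, mapv, lstd, List.map_map]
    refine List.map_congr_left fun j _ => ?_
    simp [inc, res]
  rw [e1, e2, D2nt, List.filter_map, sort_eq_filter]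
  congr 1
  refine List.filter_congr fun i _ => ?_
  by_cases h1 : i ∈ Φ <;> by_cases h2 : f (FreeGroup.of i) = 1 <;> simp [hT, h1, h2]

/-- Modulo the kernel of `f` every mixed braid is given by a mixed braid of the fixed generators and
the generators outside the kernel and a pattern. -/
private theorem D2pattern {n : ℕ} {Q : Type*} [Group Q] (f : FreeGroup (Fin n) →* Q)
    (Φ T : Finset (Fin n)) (hT : ∀ i, i ∈ T ↔ i ∈ Φ ∨ f (FreeGroup.of i) ≠ 1)
    (β : FreeGroup (Fin n) →* FreeGroup (Fin n)) (hβ : IsGBraid Φ β) :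
    ∃ β' : FreeGroup (Fin T.card) →* FreeGroup (Fin T.card), IsGBraid (res Φ T) β' ∧
      ∃ κ : Fin n → Option (Fin T.card), ∀ w, f (β w) = f (inc T (β' (pat κ w))) := by
  classical
  obtain ⟨L, hL, hLβ⟩ := hβ
  have h1 := D2nt_reach (hL.map f)
  rw [D2std f Φ T hT] at h1
  obtain ⟨L', h3, h4⟩ := h1.lift (f.comp (inc T))
  obtain ⟨β', hL'⟩ := exists_hom (n := T.card) (vals L') (by
    rw [vals, List.length_map, h3.length_eq]
    simp [lstd])
  refine ⟨β', ⟨L', h3, hL'.symm⟩, ?_⟩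
  have key : ∀ i : Fin n, ∃ k : Option (Fin T.card),
      f (β (FreeGroup.of i)) = k.elim 1 fun j => f (inc T (β' (FreeGroup.of j))) := by
    intro i
    by_cases hi : f (β (FreeGroup.of i)) = 1
    · exact ⟨none, hi⟩
    · have h5 : β (FreeGroup.of i) ∈ vals L := by
        rw [hLβ, List.mem_map]
        exact ⟨FreeGroup.of i, by simp [std], rfl⟩
      rw [vals, List.mem_map] at h5
      obtain ⟨x, hx, hx'⟩ := h5
      have h6 : (x.1, f x.2) ∈ D2nt (mapv f L) := by
        rw [D2nt, List.mem_filter]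
        refine ⟨List.mem_map.2 ⟨x, hx, rfl⟩, ?_⟩
        simp [hx', hi]
      rw [← h4, mapv, List.mem_map] at h6
      obtain ⟨y, hy, hy'⟩ := h6
      have h7 : y.2 ∈ vals L' := List.mem_map.2 ⟨y, hy, rfl⟩
      rw [← hL', List.mem_map] at h7
      obtain ⟨z, hz, hz'⟩ := h7
      rw [std, List.mem_map] at hz
      obtain ⟨j, _, rfl⟩ := hz
      refine ⟨some j, ?_⟩
      have h8 : f (inc T y.2) = f x.2 := congrArg Prod.snd hy'
      show f (β (FreeGroup.of i)) = f (inc T (β' (FreeGroup.of j)))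
      rw [hz', h8, hx']
  choose κ hκ using key
  refine ⟨κ, ?_⟩
  have h6 : f.comp β = ((f.comp (inc T)).comp β').comp (pat κ) := by
    refine FreeGroup.ext_hom _ _ fun i => ?_
    simp only [MonoidHom.comp_apply]
    rw [hκ i, pat_of]
    cases κ i with
    | none => simp
    | some j => rfl
  intro w
  exact DFunLike.congr_fun h6 w

theorem thm_D2 : St_D2 := by
  intro r n Φ S ρ H _ hnorm hS h
  classical
  -- the quotient
  have hn : (H.comap ρ).Normal := by
    refine ⟨fun x hx y => ?_⟩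
    rw [Subgroup.mem_comap] at hx ⊢
    rw [map_mul, map_mul, map_inv]
    exact hnorm _ ⟨y, rfl⟩ _ hx
  let f : FreeGroup (Fin n) →* FreeGroup (Fin n) ⧸ H.comap ρ := QuotientGroup.mk' _
  have hf1 : ∀ x, f x = 1 ↔ ρ x ∈ H := by
    intro x
    rw [← Subgroup.mem_comap]
    exact QuotientGroup.eq_one_iff x
  have hSf : ∀ i, i ∈ S ↔ i ∈ Φ ∨ f (FreeGroup.of i) ≠ 1 := by
    intro i
    rw [hS, Ne, hf1]
  set K : ℕ := (Nat.card H).factorial * Nat.card H with hK
  have hK0 : 0 < K := Nat.mul_pos (Nat.factorial_pos _) Nat.card_pos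
  have hpow : ∀ x y, f x = f y →
      (ρ x : Matrix (Fin r) (Fin r) ℂ) ^ K = (ρ y : Matrix (Fin r) (Fin r) ℂ) ^ K := by
    intro x y hxy
    have h1 : ρ x * (ρ y)⁻¹ ∈ H := by
      rw [← map_inv, ← map_mul, ← hf1, map_mul, map_inv, hxy, mul_inv_cancel]
    have h2 := pow_eq_of_coset H (ρ y) (ρ x) (hnorm _ ⟨y, rfl⟩) (hnorm _ ⟨x, rfl⟩) h1
    have h3 := congrArg (fun g : GL (Fin r) ℂ => (g : Matrix (Fin r) (Fin r) ℂ)) h2
    simpa only [Units.val_pow_eq_pow_val] using h3
  -- the orbit of the restriction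
  set O : Set (FreeGroup (Fin S.card) → ℂ) :=
    {χ | ∃ β : FreeGroup (Fin S.card) →* FreeGroup (Fin S.card), IsGBraid (res Φ S) β ∧
      χ = fun γ => ((ρ.comp (inc S)) (β γ) : Matrix (Fin r) (Fin r) ℂ).trace} with hO
  have hOfin : Finite O := h
  have hchoice : ∀ χ : O, ∃ β : FreeGroup (Fin S.card) →* FreeGroup (Fin S.card),
      IsGBraid (res Φ S) β ∧ (χ : FreeGroup (Fin S.card) → ℂ) =
        fun γ => ((ρ.comp (inc S)) (β γ) : Matrix (Fin r) (Fin r) ℂ).trace := fun χ => χ.2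
  choose b _ hb using hchoice
  -- the possible eigenvalues
  let Z : FreeGroup (Fin n) → Set ℂ := fun w =>
    ⋃ χ : O, ⋃ κ : Fin n → Option (Fin S.card),
      {z : ℂ | ∃ y ∈ {y : ℂ | (ρ (inc S (b χ (pat κ w))) :
        Matrix (Fin r) (Fin r) ℂ).charpoly.IsRoot y}, z ^ K = y ^ K}
  have hZ : ∀ w, (Z w).Finite := by
    intro w
    refine Set.finite_iUnion fun χ => Set.finite_iUnion fun κ => ?_
    refine finite_pow_eq _ ?_ K hK0
    refine ((Multiset.toFinset (Matrix.charpoly (ρ (inc S (b χ (pat κ w))) :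
      Matrix (Fin r) (Fin r) ℂ)).roots).finite_toSet).subset ?_
    intro y hy
    rw [Finset.mem_coe, Multiset.mem_toFinset, Polynomial.mem_roots (charpoly_monic _).ne_zero]
    exact hy
  have hroots : ∀ (β : FreeGroup (Fin n) →* FreeGroup (Fin n)), IsGBraid Φ β → ∀ (w) (z : ℂ),
      (ρ (β w) : Matrix (Fin r) (Fin r) ℂ).charpoly.IsRoot z → z ∈ Z w := by
    intro β hβ w z hz
    obtain ⟨β', hβ', κ, hκ⟩ := D2pattern f Φ S hSf β hβ
    obtain ⟨y, hy, hzy⟩ := root_of_pow _ _ K hK0 (hpow _ _ (hκ w)) z hz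
    let χ : O := ⟨_, β', hβ', rfl⟩
    refine Set.mem_iUnion.2 ⟨χ, Set.mem_iUnion.2 ⟨κ, y, ?_, hzy⟩⟩
    refine root_of_traces _ _ (fun k => ?_) y hy
    have h1 := congrFun (hb χ) ((pat κ w) ^ k)
    have h2 : (χ : FreeGroup (Fin S.card) → ℂ) ((pat κ w) ^ k) =
      ((ρ.comp (inc S)) (β' ((pat κ w) ^ k)) : Matrix (Fin r) (Fin r) ℂ).trace := rfl
    rw [h2] at h1
    simpa only [map_pow, Units.val_pow_eq_pow_val, MonoidHom.comp_apply] using h1
  -- finitely many words
  obtain ⟨s, hs⟩ := exists_words r n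
  let T : FreeGroup (Fin n) → Set ℂ := fun w =>
    {t : ℂ | ∃ U : Matrix (Fin r) (Fin r) ℂ, (∀ c : ℂ, U.charpoly.IsRoot c → c ∈ Z w) ∧
      U.trace = t}
  have hT : ∀ w, (T w).Finite := fun w => finite_traces_of_roots r (Z w) (hZ w)
  have hfin : (Set.univ.pi fun x : s => T x).Finite := Set.Finite.pi fun x => hT x
  refine Set.Finite.of_finite_image (f := fun (χ : FreeGroup (Fin n) → ℂ) (x : s) => χ x)
    (hfin.subset ?_) ?_
  · rintro _ ⟨_, ⟨β, hβ, rfl⟩, rfl⟩ x _
    exact ⟨_, fun c hc => hroots β hβ x c hc, rfl⟩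
  · rintro _ ⟨β, hβ, rfl⟩ _ ⟨β', hβ', rfl⟩ h1
    funext x
    exact hs (ρ.comp β) (ρ.comp β') (fun y hy => congrFun h1 ⟨y, hy⟩) x

end Pool.Agent.GF
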