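import Pool.Agent.GF.St

/-!
# Mixed braids with the labels at the original places give the same finiteness
-/

set_option autoImplicit false
set_option linter.unusedSectionVars false

namespace Pool.Agent.GF

open Matrix Module Pool.Agent.HZ

/-- the standard generators with the labels `p` -/
def Hon_lp {n : ℕ} (p : List Bool) : List (Bool × FreeGroup (Fin n)) := p.zip (std n)

theorem Hon_length_std (n : ℕ) : (std n).length = n := by
  simp [std]

theorem Hon_getElem_std (n : ℕ) (i : ℕ) (h : i < (std n).length) :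
    (std n)[i] = FreeGroup.of ⟨i, by rw [Hon_length_std] at h; exact h⟩ := by
  simp [std]

theorem Hon_lstd {n : ℕ} (Φ : Finset (Fin n)) : ∃ p : List Bool, p.length = n ∧
    lstd Φ = Hon_lp p := by
  refine ⟨(List.finRange n).map fun i => decide (i ∉ Φ), by simp, ?_⟩
  unfold lstd Hon_lp std
  rw [List.zip_map']

theorem Hon_fst {n : ℕ} {p : List Bool} (hp : p.length = n) :
    (Hon_lp (n := n) p).map Prod.fst = p := by
  unfold Hon_lp
  exact List.map_fst_zip (by rw [Hon_length_std, hp])

theorem Hon_fst_mapv {G H : Type*} [Group G] [Group H] (f : G →* H) (L : List (Bool × G)) :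
    (mapv f L).map Prod.fst = L.map Prod.fst := by
  simp [mapv, Function.comp_def]

/-- a list with the labels `p` is the image of the standard list -/
theorem Hon_exists {n : ℕ} {p : List Bool} (hp : p.length = n)
    {L : List (Bool × FreeGroup (Fin n))} (hL : L.map Prod.fst = p) :
    ∃ f : FreeGroup (Fin n) →* FreeGroup (Fin n), L = mapv f (Hon_lp p) := by
  have hlen : L.length = n := by
    have h1 : (L.map Prod.fst).length = n := by rw [hL, hp]
    rwa [List.length_map] at h1
  refine ⟨FreeGroup.lift fun i => (L[(i : ℕ)]'(by rw [hlen]; exact i.2)).2, ?_⟩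
  refine List.ext_getElem ?_ fun i h1 h2 => ?_
  · rw [List.length_map]
    unfold Hon_lp
    rw [List.length_zip, Hon_length_std, hp, hlen, min_self]
  · have h3 : i < p.length := by rw [hp, ← hlen]; exact h1
    have h4 : p[i] = L[i].1 := by
      subst hL
      rw [List.getElem_map]
    refine Prod.ext ?_ ?_
    · simp only [mapv, Hon_lp, List.getElem_map, List.getElem_zip]
      exact h4.symm
    · simp only [mapv, Hon_lp, List.getElem_map, List.getElem_zip, Hon_getElem_std,
        FreeGroup.lift_apply_of]

/-- a homomorphism which fixes the standard list is the identity -/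
theorem Hon_id {n : ℕ} {p : List Bool} (hp : p.length = n)
    {f : FreeGroup (Fin n) →* FreeGroup (Fin n)} (h : mapv f (Hon_lp p) = Hon_lp p) :
    f = MonoidHom.id _ := by
  refine FreeGroup.ext_hom f _ fun i => ?_
  have h0 : (i : ℕ) < (std n).length := by rw [Hon_length_std]; exact i.2
  have h1 : vals (mapv f (Hon_lp (n := n) p)) = vals (Hon_lp p) := by rw [h]
  rw [vals_mapv] at h1
  have h2 : vals (Hon_lp (n := n) p) = std n := by
    unfold Hon_lp vals
    exact List.map_snd_zip (by rw [Hon_length_std, hp])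
  rw [h2] at h1
  have h3 : ((std n).map f)[(i : ℕ)]'(by rw [List.length_map]; exact h0) = (std n)[(i : ℕ)] := by
    simp only [h1]
  rw [List.getElem_map, Hon_getElem_std] at h3
  exact h3

theorem Hon_inv {n : ℕ} {Φ : Finset (Fin n)} {p : List Bool} (hp : p.length = n)
    {β : FreeGroup (Fin n) →* FreeGroup (Fin n)} (h : MReach (lstd Φ) (mapv β (Hon_lp p))) :
    ∃ γ : FreeGroup (Fin n) →* FreeGroup (Fin n), MReach (Hon_lp p) (mapv γ (lstd Φ)) ∧
      γ.comp β = MonoidHom.id _ := by
  obtain ⟨q, hq, hΦ⟩ := Hon_lstd Φ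
  obtain ⟨L', h1, h2⟩ := h.symm.lift β
  have h3 : L'.map Prod.fst = q := by
    rw [← Hon_fst_mapv β, h2, hΦ, Hon_fst hq]
  obtain ⟨γ, rfl⟩ := Hon_exists hq h3
  rw [mapv_mapv, hΦ] at h2
  have h4 : β.comp γ = MonoidHom.id _ := Hon_id hq h2
  obtain ⟨L'', h5, h6⟩ := h1.symm.lift γ
  have h7 : L''.map Prod.fst = p := by
    rw [← Hon_fst_mapv γ, h6, Hon_fst hp]
  obtain ⟨δ, rfl⟩ := Hon_exists hp h7
  rw [mapv_mapv] at h6
  have h8 : γ.comp δ = MonoidHom.id _ := Hon_id hp h6
  refine ⟨γ, by rw [hΦ]; exact h1, ?_⟩
  have h9 : β = δ := by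
    calc β = β.comp (γ.comp δ) := by rw [h8, MonoidHom.comp_id]
      _ = (β.comp γ).comp δ := (MonoidHom.comp_assoc _ _ _).symm
      _ = δ := by rw [h4, MonoidHom.id_comp]
  rw [h9, h8]

theorem thm_Hon : St_Hon := by
  classical
  intro r n Φ ρ
  constructor
  · intro hfin
    -- the patterns of labels
    have hpf : {p : List Bool | p.length = n}.Finite := List.finite_length_eq Bool n
    have key : ∀ p : List Bool, p.length = n →
        {χ : FreeGroup (Fin n) → ℂ | ∃ β : FreeGroup (Fin n) →* FreeGroup (Fin n),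
          MReach (lstd Φ) (mapv β (Hon_lp p)) ∧
            χ = fun γ => (ρ (β γ) : Matrix (Fin r) (Fin r) ℂ).trace}.Finite := by
      intro p hp
      by_cases hne : ∃ β : FreeGroup (Fin n) →* FreeGroup (Fin n),
          MReach (lstd Φ) (mapv β (Hon_lp p))
      · obtain ⟨β₀, hβ₀⟩ := hne
        obtain ⟨γ, h1, h2⟩ := Hon_inv hp hβ₀
        refine (hfin.image fun χ => χ ∘ β₀).subset ?_
        rintro _ ⟨β, hβ, rfl⟩
        refine ⟨fun g => (ρ ((β.comp γ) g) : Matrix (Fin r) (Fin r) ℂ).trace,
          ⟨β.comp γ, ?_, rfl⟩, ?_⟩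
        · have h3 := h1.map β
          rw [mapv_mapv] at h3
          exact hβ.trans h3
        · funext g
          show (ρ (β (γ (β₀ g))) : Matrix (Fin r) (Fin r) ℂ).trace = _
          have h3 : γ (β₀ g) = g := by
            have h4 := DFunLike.congr_fun h2 g
            exact h4
          rw [h3]
      · refine Set.Finite.subset Set.finite_empty ?_
        rintro _ ⟨β, hβ, rfl⟩
        exact absurd ⟨β, hβ⟩ hne
    refine (hpf.biUnion fun p hp => key p hp).subset ?_
    rintro _ ⟨β, ⟨L, hL, hv⟩, rfl⟩
    have hlen : L.length = n := by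
      have h1 : (vals L).length = ((std n).map β).length := by rw [hv]
      rwa [List.length_map, List.length_map, Hon_length_std] at h1
    refine Set.mem_biUnion (x := L.map Prod.fst) (by
      show (L.map Prod.fst).length = n
      rw [List.length_map, hlen]) ?_
    refine ⟨β, ?_, rfl⟩
    have h2 : mapv β (Hon_lp (L.map Prod.fst)) = L := by
      have h3 : mapv β (Hon_lp (n := n) (L.map Prod.fst)) =
          (L.map Prod.fst).zip ((std n).map β) := by
        unfold mapv Hon_lp
        rw [List.zip_map_right]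
        rfl
      rw [h3, ← hv]
      unfold vals
      rw [List.zip_map', List.map_id'']
      intro x
      rfl
    rw [h2]
    exact hL
  · intro hfin
    refine hfin.subset ?_
    rintro _ ⟨β, hβ, rfl⟩
    refine ⟨β, ⟨_, hβ, ?_⟩, rfl⟩
    unfold vals lstd std
    rw [List.map_map, List.map_map, List.map_map]
    rfl

end Pool.Agent.GF
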