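import Pool.Agent.GF.D1

/-!
# GF, module Lp: moving loops of a subdisc which contains the fixed punctures
-/

set_option autoImplicit false

namespace Pool.Agent.GF

open Pool.Agent.HZ

/-- **Lp** -/
theorem thm_Lp : St_Lp := by
  intro n Φ T hT γ h
  exact MLoop.of_pre (d1_pre hT) (MLoop.map (inc T) h)

end Pool.Agent.GF
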