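import Pool.Agent.GF.St
import Pool.Agent.HZ.RedA

/-!
# GF / Mrg: the structure theorem with fixed punctures

One set of moving punctures for the reduction and for the structure of irreducible representations.
-/

set_option autoImplicit false

namespace Pool.Agent.GF

open Matrix Module Pool.Agent.HZ

variable {r : ℕ}

/-- the labelled list of the images of the generators of a subdisc -/
theorem Mrg_lres {n : ℕ} (Φ T : Finset (Fin n)) :
    (lstd (res Φ T)).map (fun x => (x.1, inc T x.2)) =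
      T.sort.map (fun i => (decide (i ∉ Φ), FreeGroup.of i)) := by
  rw [← Finset.listMap_orderEmbOfFin_finRange T rfl, lstd, List.map_map, List.map_map]
  refine List.map_congr_left fun j _ => ?_
  simp [inc, res]

/-- the finiteness of the orbit depends only on the labelled list of the images of the generators -/
theorem Mrg_congr {m₁ m₂ : ℕ} (h : m₁ = m₂) (Φ₁ : Finset (Fin m₁)) (Φ₂ : Finset (Fin m₂))
    (σ₁ : FreeGroup (Fin m₁) →* GL (Fin r) ℂ) (σ₂ : FreeGroup (Fin m₂) →* GL (Fin r) ℂ)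
    (hl : (lstd Φ₁).map (fun x => (x.1, σ₁ x.2)) = (lstd Φ₂).map (fun x => (x.1, σ₂ x.2)))
    (hf : FinGOrb Φ₁ σ₁) : FinGOrb Φ₂ σ₂ := by
  subst h
  rw [lstd, lstd, List.map_map, List.map_map, List.map_inj_left] at hl
  have h1 : Φ₁ = Φ₂ := by
    ext i
    have h2 := congrArg Prod.fst (hl i (List.mem_finRange i))
    simp only [Function.comp_apply] at h2
    have h3 := decide_eq_decide.1 h2
    exact not_iff_not.1 h3
  have h2 : σ₁ = σ₂ := by
    refine FreeGroup.ext_hom _ _ fun i => ?_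
    exact congrArg Prod.snd (hl i (List.mem_finRange i))
  rw [← h1, ← h2]
  exact hf

/-- the finiteness of the orbit passes from a subdisc to a smaller one which contains the fixed
punctures -/
theorem Mrg_mono (hD1 : St_D1) {n : ℕ} (ρ : FreeGroup (Fin n) →* GL (Fin r) ℂ)
    (Φ S S' : Finset (Fin n)) (hΦ : Φ ⊆ S) (hS : S ⊆ S')
    (h : FinGOrb (res Φ S') (ρ.comp (inc S'))) : FinGOrb (res Φ S) (ρ.comp (inc S)) := by
  classical
  let e := S'.orderEmbOfFin (rfl : S'.card = S'.card)
  let T : Finset (Fin S'.card) := Finset.univ.filter fun j => e j ∈ S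
  have hmap : T.map e.toEmbedding = S := by
    ext i
    simp only [Finset.mem_map, T, Finset.mem_filter, Finset.mem_univ, true_and]
    constructor
    · rintro ⟨j, hj, rfl⟩
      exact hj
    · intro hi
      have hi' : i ∈ Set.range e := by
        rw [Finset.range_orderEmbOfFin]
        exact hS hi
      obtain ⟨j, rfl⟩ := hi'
      exact ⟨j, hi, rfl⟩
  have hcard : T.card = S.card := by
    rw [← hmap, Finset.card_map]
  have hT : res Φ S' ⊆ T := by
    intro j hj
    simp only [res, Finset.mem_filter, Finset.mem_univ, true_and] at hj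
    simp only [T, Finset.mem_filter, Finset.mem_univ, true_and]
    exact hΦ hj
  have h1 := hD1 r S'.card (res Φ S') T (ρ.comp (inc S')) hT h
  refine Mrg_congr hcard _ _ _ _ ?_ h1
  have h4 : (T.sort).map e = S.sort := by
    rw [sort_eq_filter T, sort_eq_filter S]
    have h5 : ((List.finRange S'.card).filter fun j => decide (j ∈ T)).map e =
        ((List.finRange S'.card).map e).filter fun i => decide (i ∈ S) := by
      rw [List.filter_map]
      congr 1
      refine List.filter_congr fun j _ => ?_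
      simp [T]
    rw [h5]
    have h6 : (List.finRange S'.card).map e = S'.sort := Finset.listMap_orderEmbOfFin_finRange S' rfl
    rw [h6, sort_eq_filter S', List.filter_filter]
    refine List.filter_congr fun i _ => ?_
    by_cases hi : i ∈ S
    · simp [hi, hS hi]
    · simp [hi]
  have h2 : (lstd (res (res Φ S') T)).map (fun x => (x.1, ((ρ.comp (inc S')).comp (inc T)) x.2)) =
      ((lstd (res (res Φ S') T)).map (fun x => (x.1, inc T x.2))).map
        (fun x => (x.1, (ρ.comp (inc S')) x.2)) := by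
    rw [List.map_map]
    rfl
  have h3 : (lstd (res Φ S)).map (fun x => (x.1, (ρ.comp (inc S)) x.2)) =
      ((lstd (res Φ S)).map (fun x => (x.1, inc S x.2))).map (fun x => (x.1, ρ x.2)) := by
    rw [List.map_map]
    rfl
  rw [h2, h3, Mrg_lres, Mrg_lres, List.map_map, List.map_map, ← h4, List.map_map]
  refine List.map_congr_left fun j _ => ?_
  simp [inc, e, res]

theorem thm_Mrg (hRed : St_Red) (hClf : St_Clf) (hHon : St_Hon) (hD1 : St_D1) : St_Mrg := by
  classical
  intro r hr
  obtain ⟨N₁, h₁, h₁'⟩ := hRed r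
  obtain ⟨N₂, h₂⟩ := hClf r hr
  refine ⟨N₁ + N₂, ?_, ?_, ?_⟩
  · intro n Φ ρ hρ
    obtain ⟨S₁, a1, a0, a2, a3, a4⟩ := h₁ n Φ ρ hρ
    by_cases hirr : Irr ρ.range
    · obtain ⟨-, S₂, H, d, e, α, β, b1, b0, b2, b3, b4, b5, b6, b7⟩ := h₂ n Φ ρ hρ hirr
      have hs₁ : Φ ∪ S₁ ⊆ Φ ∪ (S₁ ∪ S₂) :=
        Finset.union_subset_union (Finset.Subset.refl _) Finset.subset_union_left
      have hs₂ : Φ ∪ S₂ ⊆ Φ ∪ (S₁ ∪ S₂) :=
        Finset.union_subset_union (Finset.Subset.refl _) Finset.subset_union_right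
      have hK₁ : KK (Φ ∪ (S₁ ∪ S₂)) ≤ KK (Φ ∪ S₁) := by
        apply Subgroup.normalClosure_mono
        rintro x ⟨i, hi, rfl⟩
        exact ⟨i, fun h => hi (hs₁ h), rfl⟩
      have hK₂ : KK (Φ ∪ (S₁ ∪ S₂)) ≤ KK (Φ ∪ S₂) := by
        apply Subgroup.normalClosure_mono
        rintro x ⟨i, hi, rfl⟩
        exact ⟨i, fun h => hi (hs₂ h), rfl⟩
      refine ⟨S₁ ∪ S₂, (Finset.card_union_le _ _).trans (add_le_add a1 b1),
        Finset.disjoint_union_right.2 ⟨a0, b0⟩,
        fun x hx => a2 x (hK₁ hx), fun hc => ?_, ⟨fun h => ?_, fun h => ?_⟩, fun _ =>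
          ⟨H, d, e, α, β, b2, b3, hK₂.trans b4, b5, fun i hi => b6 i fun h =>
            hi (hs₂ h), fun hN => b7 (lt_of_le_of_lt (Nat.le_add_left _ _) hN)⟩⟩
      · have := a3 hc
        exact Finite.Set.subset (α := GL (Fin r) ℂ)
          ((KK (Φ ∪ S₁)).map ρ : Set (GL (Fin r) ℂ))
          (Subgroup.map_mono hK₁)
      · exact (hHon _ _ _ _).2 (hD1 r n Φ _ ρ Finset.subset_union_left ((hHon _ _ _ _).1 h))
      · refine a4.2 ((hHon _ _ _ _).2 ?_)
        exact Mrg_mono hD1 ρ Φ (Φ ∪ S₁) (Φ ∪ (S₁ ∪ S₂)) Finset.subset_union_left hs₁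
          ((hHon _ _ _ _).1 h)
    · exact ⟨S₁, a1.trans (Nat.le_add_right _ _), a0, a2, a3, a4, fun h => absurd h hirr⟩
  · intro n Φ ρ hρ hirr hc
    refine (h₂ n Φ ρ hρ hirr).1 ?_
    rcases hc with hc | ⟨hp, hc⟩
    · left
      exact lt_of_le_of_lt (Nat.le_add_left _ _) hc
    · right
      exact ⟨hp, lt_of_le_of_lt (Nat.le_add_left _ _) hc⟩
  · intro m h
    exact h₁' m fun n Φ hm hn => h n Φ hm (hn.trans (Nat.add_le_add_left (Nat.le_add_right _ _) _))

end Pool.Agent.GF
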