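import Pool.Agent.GF.St
import Pool.Agent.HZ.RedE

/-!
# Fixed and moving punctures: the reduction to a bounded number of moving punctures
-/

set_option autoImplicit false

namespace Pool.Agent.GF

open Matrix Pool.Agent.HZ

theorem Red_traces {r n : ℕ} (Φ : Finset (Fin n)) (ρ ρ' : FreeGroup (Fin n) →* GL (Fin r) ℂ)
    (h : ∀ x, (ρ' x : Matrix (Fin r) (Fin r) ℂ).trace = (ρ x : Matrix (Fin r) (Fin r) ℂ).trace)
    (hx : FinGOrb Φ ρ) : FinGOrb Φ ρ' := by
  refine Set.Finite.subset hx ?_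
  rintro χ ⟨β, hβ, rfl⟩
  exact ⟨β, hβ, funext fun γ => h (β γ)⟩

theorem Red_card {n : ℕ} {Φ T : Finset (Fin n)} (h : Φ ⊆ T) : Φ.card ≤ (res Φ T).card := by
  classical
  have h1 : Φ ⊆ (res Φ T).image (T.orderEmbOfFin rfl) := by
    intro i hi
    have h2 : i ∈ Set.range (T.orderEmbOfFin rfl) := by
      rw [Finset.range_orderEmbOfFin]
      exact h hi
    obtain ⟨j, rfl⟩ := h2
    refine Finset.mem_image_of_mem _ ?_
    rw [res, Finset.mem_filter]
    exact ⟨Finset.mem_univ j, hi⟩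
  exact (Finset.card_le_card h1).trans Finset.card_image_le

theorem Red_card_le {n : ℕ} (Φ T : Finset (Fin n)) : (res Φ T).card ≤ Φ.card := by
  classical
  refine Finset.card_le_card_of_injOn (T.orderEmbOfFin rfl) (fun j hj => ?_)
    (fun a _ b _ hab => (T.orderEmbOfFin rfl).injective hab)
  have hj' : j ∈ res Φ T := hj
  rw [res, Finset.mem_filter] at hj'
  exact hj'.2

/-- **Red**: the reduction to a bounded number of moving punctures. -/
theorem thm_Red (hMain : St_Main) (hHon : St_Hon) (hD1 : St_D1) (hD2 : St_D2) (hLp : St_Lp) :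
    St_Red := by
  classical
  intro r
  obtain ⟨N, hN⟩ := hMain r
  have key : ∀ (n : ℕ) (Φ : Finset (Fin n)) (ρ : FreeGroup (Fin n) →* GL (Fin r) ℂ),
      HypQ Φ ρ → ∃ S : Finset (Fin n), S.card ≤ N ∧ Disjoint Φ S ∧
        (∀ x ∈ KK (Φ ∪ S), Quasi (ρ x)) ∧
        (CRed ρ.range → Finite ((KK (Φ ∪ S)).map ρ)) ∧
        (FinMOrb Φ ρ ↔ FinMOrb (res Φ (Φ ∪ S)) (ρ.comp (inc (Φ ∪ S)))) := by
    intro n Φ ρ hρ
    obtain ⟨ρ', hcr, htr⟩ := exists_cred ρ
    have hρ' : HypQ Φ ρ' := fun γ hγ => quasi_of_traces ρ ρ' htr γ (hρ γ hγ)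
    obtain ⟨S₀, H, hS₀, _, hH, hnorm, hgen, hroot⟩ := hN n Φ ρ' hρ'
    have hfin : Finite H := finite_of_roots ρ'.range H (range_fg ρ') hH hnorm hroot hcr
    obtain ⟨S, hmem⟩ : ∃ S : Finset (Fin n), ∀ i, i ∈ S ↔ i ∉ Φ ∧ ρ' (FreeGroup.of i) ∉ H :=
      ⟨Finset.univ.filter fun i => i ∉ Φ ∧ ρ' (FreeGroup.of i) ∉ H, fun i => by
        rw [Finset.mem_filter]
        exact ⟨fun h => h.2, fun h => ⟨Finset.mem_univ i, h⟩⟩⟩
    have hT : ∀ i, i ∈ Φ ∪ S ↔ i ∈ Φ ∨ ρ' (FreeGroup.of i) ∉ H := by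
      intro i
      rw [Finset.mem_union, hmem]
      constructor
      · rintro (h | h)
        · exact Or.inl h
        · exact Or.inr h.2
      · rintro (h | h)
        · exact Or.inl h
        · by_cases hi : i ∈ Φ
          · exact Or.inl hi
          · exact Or.inr ⟨hi, h⟩
    have hle : KK (Φ ∪ S) ≤ H.comap ρ' := by
      have hn : (H.comap ρ').Normal := by
        refine ⟨fun x hx y => ?_⟩
        rw [Subgroup.mem_comap] at hx ⊢
        rw [map_mul, map_mul, map_inv]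
        exact hnorm _ ⟨y, rfl⟩ _ hx
      refine Subgroup.normalClosure_le_normal ?_
      rintro x ⟨i, hi, rfl⟩
      by_contra hcon
      exact hi ((hT i).2 (Or.inr hcon))
    have hquasi : ∀ x ∈ KK (Φ ∪ S), Quasi (ρ x) := fun x hx =>
      quasi_of_traces ρ' ρ (fun y => (htr y).symm) x (fun z hz => hroot _ (hle hx) z hz)
    refine ⟨S, ?_, ?_, hquasi, ?_, ?_⟩
    · refine (Finset.card_le_card ?_).trans hS₀
      intro i hi
      by_contra hcon
      refine ((hmem i).1 hi).2 (hgen i ?_)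
      rw [Finset.mem_union]
      rintro (h | h)
      · exact ((hmem i).1 hi).1 h
      · exact hcon h
    · rw [Finset.disjoint_left]
      exact fun i hi hi' => ((hmem i).1 hi').1 hi
    · intro hc
      refine finite_of_roots ρ.range _ (range_fg ρ) (Subgroup.map_le_range ρ _) ?_ ?_ hc
      · rintro _ ⟨y, rfl⟩ _ ⟨x, hx, rfl⟩
        refine ⟨y * x * y⁻¹, Subgroup.normalClosure_normal.conj_mem x hx y, ?_⟩
        rw [map_mul, map_mul, map_inv]
      · rintro _ ⟨x, hx, rfl⟩ z hz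
        exact hquasi x hx z hz
    · rw [hHon, hHon]
      refine ⟨fun h => hD1 r n Φ (Φ ∪ S) ρ Finset.subset_union_left h, fun h => ?_⟩
      have h1 : FinGOrb (res Φ (Φ ∪ S)) (ρ'.comp (inc (Φ ∪ S))) :=
        Red_traces _ (ρ.comp (inc (Φ ∪ S))) (ρ'.comp (inc (Φ ∪ S)))
          (fun x => htr (inc (Φ ∪ S) x)) h
      exact Red_traces Φ ρ' ρ (fun y => (htr y).symm) (hD2 r n Φ (Φ ∪ S) ρ' H hnorm hT h1)
  refine ⟨N, key, fun m h n Φ hm ρ hρ => ?_⟩
  obtain ⟨S, hS, _, _, _, hiff⟩ := key n Φ ρ hρ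
  have h1 := Red_card (Finset.subset_union_left : Φ ⊆ Φ ∪ S)
  have h2 := Finset.card_union_le Φ S
  have h3 := Red_card_le Φ (Φ ∪ S)
  exact hiff.2 (h (Φ ∪ S).card (res Φ (Φ ∪ S)) (by omega) (by omega) _ fun γ hγ =>
    hρ _ (hLp n Φ (Φ ∪ S) Finset.subset_union_left γ hγ))

end Pool.Agent.GF
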