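import Pool.Agent.GF.Main
import Pool.Agent.GF.Hon
import Pool.Agent.GF.D1
import Pool.Agent.GF.D2
import Pool.Agent.GF.Lp
import Pool.Agent.GF.Red
import Pool.Agent.GF.Clf
import Pool.Agent.GF.Mrg

/-!
# The structure theorem with fixed punctures: the chain of all modules
-/

set_option autoImplicit false

namespace Pool.Agent.GF

theorem all_Red : St_Red := thm_Red thm_Main thm_Hon thm_D1 thm_D2 thm_Lp

theorem all_Clf : St_Clf := thm_Clf thm_Main

theorem all_Mrg : St_Mrg := thm_Mrg all_Red all_Clf thm_Hon thm_D1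

end Pool.Agent.GF
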