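import Pool.Agent.GF.Pairs
import Pool.Agent.HZ.Core

/-!
# The core of the structure theorem with fixed punctures
-/

set_option autoImplicit false
set_option linter.unusedSectionVars false

namespace Pool.Agent.GF

open Pool.Agent.HZ Helper12.Sc Module Pointwise

section
variable {G : Type} [Group G]

/-- the moving elements can be moved to the end of the list unchanged -/
theorem exists_sep (T : List (Bool × G)) :
    ∃ P : List G, MReach T (lab false P ++ T.filter fun x => x.1) := by
  induction T with
  | nil => exact ⟨[], MReach.refl _⟩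
  | cons a T ih =>
    obtain ⟨P, hP⟩ := ih
    rcases a with ⟨b, a⟩
    cases b with
    | false =>
      refine ⟨a :: P, ?_⟩
      have h1 := hP.cons (false, a)
      simpa using h1
    | true =>
      refine ⟨P.map fun x => a * x * a⁻¹, ?_⟩
      have h1 := hP.cons (true, a)
      have h2 := (mmove_right (true, a) (lab false P) (Or.inl rfl)).append_right
        (T.filter fun x => x.1)
      have h3 := h1.trans h2
      have e : (lab false P).map (fun x => (x.1, a * x.2 * a⁻¹)) =
          lab false (P.map fun x => a * x * a⁻¹) := by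
        simp [lab, Function.comp_def]
      rw [e] at h3
      simpa using h3

/-- A labelled list is split into few blocks such that given elements are products of blocks. -/
theorem exists_split (P : List (Bool × G)) (S : List G) (h : ∀ x ∈ S, x ∈ vals P) :
    ∃ (B : List (Bool × G)) (Zs : List (List (Bool × G))), (B :: Zs).flatten = P ∧
      Zs.length ≤ 2 * S.length ∧ ∀ x ∈ S, x ∈ Zs.map fun Z => (vals Z).prod := by
  classical
  induction P generalizing S with
  | nil =>
    refine ⟨[], [], rfl, Nat.zero_le _, fun x hx => ?_⟩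
    have h1 := h x hx
    simp at h1
  | cons a P ih =>
    by_cases ha : a.2 ∈ S
    · obtain ⟨B, Zs, h1, h2, h3⟩ := ih (S.filter fun x => x ≠ a.2) (by
        intro x hx
        rw [List.mem_filter] at hx
        have h4 := h x hx.1
        rw [vals, List.map_cons, List.mem_cons] at h4
        rcases h4 with h4 | h4
        · exact absurd h4 (by simpa using hx.2)
        · exact h4)
      refine ⟨[], [a] :: B :: Zs, ?_, ?_, ?_⟩
      · rw [← h1]
        simp
      · rw [List.length_cons, List.length_cons]
        have h4 : (S.filter fun x => x ≠ a.2).length < S.length := by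
          rw [List.length_filter_lt_length_iff_exists]
          exact ⟨a.2, ha, by simp⟩
        omega
      · intro x hx
        by_cases hxa : x = a.2
        · rw [hxa]
          simp
        · have h4 := h3 x (by
            rw [List.mem_filter]
            exact ⟨hx, by simpa using hxa⟩)
          rw [List.map_cons, List.map_cons]
          exact List.mem_cons_of_mem _ (List.mem_cons_of_mem _ h4)
    · obtain ⟨B, Zs, h1, h2, h3⟩ := ih S (by
        intro x hx
        have h4 := h x hx
        rw [vals, List.map_cons, List.mem_cons] at h4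
        rcases h4 with h4 | h4
        · exact absurd (h4 ▸ hx) ha
        · exact h4)
      refine ⟨a :: B, Zs, ?_, h2, h3⟩
      rw [← h1]
      simp

/-- The moving loops for the products of the blocks of `P` (as fixed letters) and for products of
sublists of the windows are moving loops. -/
theorem mtup_loop {m : ℕ} (T P : List (Bool × G)) (R' : List G)
    (grp : Fin m × Bool → List (List G))
    (hT : MReach T (P ++ lab true (((List.finRange m).map fun i =>
      grp (i, false) ++ grp (i, true)).flatten.flatten ++ R')))
    (Zs : List (List (Bool × G))) (hZ : Zs.flatten = P)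
    (v : Fin m × Bool → G) (hv : ∀ k, v k ∈ zs (grp k)) (γ : G)
    (hγ : MLoop (mtup (Zs.map fun Z => (vals Z).prod).get v) γ) : MLoop T γ := by
  choose S hS1 hS2 using fun k => zs_sublist (grp k) (v k) (hv k)
  -- the sublists of the windows
  have h1 : (((List.finRange m).map fun i => S (i, false) ++ S (i, true)).flatten).Sublist
      (((List.finRange m).map fun i =>
      grp (i, false) ++ grp (i, true)).flatten.flatten ++ R') := by
    refine List.Sublist.trans ?_ (List.sublist_append_left _ R')
    induction (List.finRange m) with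
    | nil => exact List.Sublist.refl _
    | cons a l ih =>
      simp only [List.map_cons, List.flatten_cons, List.flatten_append]
      exact List.Sublist.append (List.Sublist.append (hS1 _) (hS1 _)) ih
  obtain ⟨C, hC⟩ := Pre.sublist h1
  have h2 := (MReach.of_breach hC).append_left P
  have e : P ++ lab true (((List.finRange m).map fun i =>
      S (i, false) ++ S (i, true)).flatten ++ C) = (P ++ lab true
      (((List.finRange m).map fun i => S (i, false) ++ S (i, true)).flatten)) ++ lab true C := by
    rw [lab_append, List.append_assoc]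
  rw [e] at h2
  have h3 : MPre T (P ++ lab true
      (((List.finRange m).map fun i => S (i, false) ++ S (i, true)).flatten)) :=
    ⟨lab true C, hT.trans h2⟩
  -- the blocks
  let Bs : List (Bool × List (Bool × G)) := Zs.map (fun Z => (false, Z)) ++
    ((List.finRange m).map fun i =>
      [(true, lab true (S (i, false))), (true, lab true (S (i, true)))]).flatten
  have hBs : ∀ b ∈ Bs, Blk b := by
    intro b hb
    simp only [Bs, List.mem_append, List.mem_map, List.mem_flatten] at hb
    rcases hb with ⟨Z, _, rfl⟩ | ⟨l, ⟨i, _, rfl⟩, hb⟩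
    · intro h
      exact absurd h (by simp)
    · simp only [List.mem_cons, List.not_mem_nil, or_false] at hb
      rcases hb with rfl | rfl
      · exact fun _ => mov_lab _
      · exact fun _ => mov_lab _
  have h4 : Bs.map bprod = mtup (Zs.map fun Z => (vals Z).prod).get v := by
    simp only [Bs, mtup, List.map_append]
    congr 1
    · rw [List.map_map, lab]
      have h5 : (List.finRange (Zs.map fun Z => (vals Z).prod).length).map
          (Zs.map fun Z => (vals Z).prod).get = Zs.map fun Z => (vals Z).prod :=
        List.map_get_finRange _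
      rw [h5, List.map_map]
      rfl
    · induction (List.finRange m) with
      | nil => rfl
      | cons a l ih =>
        simp only [List.map_cons, List.flatten_cons, List.map_append, List.map_nil, ih, lab]
        congr 1
        simp only [bprod, vals, List.map_map, Function.comp_def, List.map_id', hS2]
  have h5 : flat Bs = P ++ lab true
      (((List.finRange m).map fun i => S (i, false) ++ S (i, true)).flatten) := by
    simp only [Bs, flat, List.map_append, List.flatten_append, List.map_map, Function.comp_def]
    congr 1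
    · rw [List.map_id', hZ]
    · induction (List.finRange m) with
      | nil => rfl
      | cons a l ih =>
        simp only [List.map_cons, List.flatten_cons, List.map_append, List.flatten_append, ih,
          List.map_nil]
        simp
  rw [← h4] at hγ
  have h6 := mblocks_loop hBs hγ
  rw [h5] at h6
  exact MLoop.of_pre h3 h6

end

theorem mcore (B : ℕ → ℕ) (d0 : ℕ) : ∃ N : ℕ, ∀ (G : Type) [Group G] (ι : Type) [Finite ι]
    (e : ι → G → ℂ), Good e → (∀ d, finrank ℂ (space e d) ≤ B d) → ∀ 𝓕 : Set (G → ℂ),
    (∀ F ∈ 𝓕, F ∈ space e d0) → ∀ T : List (Bool × G), (∀ γ, MLoop T γ → ∀ F ∈ 𝓕, F γ = 0) →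
    ∃ P₀ P R : List G, MReach T (lab false P₀ ++ lab true (P ++ R)) ∧ P.length ≤ N ∧
      ∀ x ∈ Subgroup.closure (cj (P₀ ++ P) R), ∀ F ∈ 𝓕, F x = 0 := by
  obtain ⟨m, hm⟩ : ∃ m, m = B d0 + 1 := ⟨_, rfl⟩
  obtain ⟨l, hl⟩ : ∃ l, l = B (2 * m * d0) + 1 := ⟨_, rfl⟩
  obtain ⟨D, hD⟩ := mexists_bound (2 * (m * l) + 1) m l
  obtain ⟨q, hq⟩ : ∃ q, q = B (D * d0) + 1 := ⟨_, rfl⟩
  refine ⟨2 * m * q * (B (D * d0)) ^ 2 * (B (D * d0)) ^ 2, ?_⟩
  intro G _ ι _ e he hB 𝓕 h𝓕 T hT
  have hfd : ∀ d, FiniteDimensional ℂ (space e d) := by
    intro d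
    have := Fintype.ofFinite ι
    exact finite_space e d
  have hV : ∀ y : G, ∀ F ∈ space e (D * d0), rtr y F ∈ space e (D * d0) :=
    fun y F hF => he.rtr_mem y _ F hF
  -- the moving elements
  obtain ⟨P₀, hP₀⟩ := exists_sep T
  obtain ⟨R₀, hR₀⟩ : ∃ R₀ : List G, lab true R₀ = T.filter fun x => x.1 :=
    ⟨vals (T.filter fun x => x.1), lab_vals_of_mov (by
      intro x hx
      rw [List.mem_filter] at hx
      exact hx.2)⟩
  rw [← hR₀] at hP₀
  -- the robust list and the windows
  obtain ⟨P, R, hPR, hPlen, hrob⟩ := exists_robust (space e (D * d0)) hV R₀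
    (2 * m * q * (finrank ℂ (space e (D * d0))) ^ 2)
  obtain ⟨Us, R', hUlen, hUs, hUalg⟩ := exists_windows (space e (D * d0)) hV R (2 * m * q) hrob
  have hTPR : MReach T (lab false P₀ ++ lab true (P ++ R)) :=
    hP₀.trans ((MReach.of_breach hPR).append_left _)
  refine ⟨P₀, P, R, hTPR, ?_, ?_⟩
  · refine hPlen.trans ?_
    have h1 := hB (D * d0)
    have h2 : (finrank ℂ (space e (D * d0))) ^ 2 ≤ (B (D * d0)) ^ 2 := Nat.pow_le_pow_left h1 2
    exact Nat.mul_le_mul (Nat.mul_le_mul_left _ h2) h2
  obtain ⟨grp, hgrp1, hgrp2⟩ := exists_groups q m Us hUlen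
  have hTU : MReach T ((lab false P₀ ++ lab true P) ++ lab true (((List.finRange m).map fun i =>
      grp (i, false) ++ grp (i, true)).flatten.flatten ++ R')) := by
    rw [← hgrp2, List.append_assoc, ← lab_append]
    exact hTPR.trans ((MReach.of_breach (hUs.append_left P)).append_left _)
  have hvals : vals (lab false P₀ ++ lab true P) = P₀ ++ P := by
    rw [vals_append, vals_lab, vals_lab]
  -- groups are saturated
  have hsat : ∀ k : Fin m × Bool, ∀ F ∈ space e (D * d0), (∀ z ∈ zs (grp k), F z = 0) →
      ∀ g ∈ (Subgroup.closure {x | x ∈ R} : Set G), F g = 0 := by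
    intro k F hF h0 g hg
    refine saturate (space e (D * d0)) hV R (grp k) ?_ ?_ F hF h0 g hg
    · rw [hgrp1 k, hq]
      exact Nat.lt_succ_of_le (hB _)
    · intro U hU
      apply hUalg
      rw [hgrp2]
      rw [List.mem_flatten]
      rcases k with ⟨i, b⟩
      refine ⟨_, List.mem_map.2 ⟨i, List.mem_finRange i, rfl⟩, ?_⟩
      rw [List.mem_append]
      cases b
      · exact Or.inl hU
      · exact Or.inr hU
  -- short words
  have short : ∀ F ∈ 𝓕, ∀ g : Fin m → G, (∀ i, g i ∈ Subgroup.closure {x | x ∈ R}) →
      ∀ u : Fin m → List G, (∀ i, (u i).length ≤ l) → (∀ i, ∀ x ∈ u i, x ∈ P₀ ++ P) →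
      F (((List.finRange m).map fun i => (u i).prod * g i * (u i).prod⁻¹).prod) = 0 := by
    intro F hF g hg u hu1 hu2
    obtain ⟨B₀, Zs, hZ1, hZ2, hZ3⟩ := exists_split (lab false P₀ ++ lab true P)
      ((List.finRange m).map u).flatten (by
      intro x hx
      rw [hvals]
      rw [List.mem_flatten] at hx
      obtain ⟨s, hs, hx⟩ := hx
      rw [List.mem_map] at hs
      obtain ⟨i, _, rfl⟩ := hs
      exact hu2 i x hx)
    have hlenS : ((List.finRange m).map u).flatten.length ≤ m * l := by
      rw [List.length_flatten, List.map_map]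
      refine (List.sum_le_card_nsmul _ l ?_).trans ?_
      · intro x hx
        rw [List.mem_map] at hx
        obtain ⟨i, _, rfl⟩ := hx
        exact hu1 i
      · simp
    obtain ⟨Y, hY⟩ : ∃ Y : List G, Y = (B₀ :: Zs).map fun Z => (vals Z).prod := ⟨_, rfl⟩
    have hYlen : Y.length ≤ 2 * (m * l) + 1 := by
      rw [hY, List.length_map, List.length_cons]
      have := Nat.mul_le_mul_left 2 hlenS
      omega
    have hYall : ∀ i, ∀ x ∈ u i, x ∈ Y := by
      intro i x hx
      rw [hY, List.map_cons]
      refine List.mem_cons_of_mem _ (hZ3 x ?_)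
      rw [List.mem_flatten]
      exact ⟨u i, List.mem_map.2 ⟨i, List.mem_finRange i, rfl⟩, hx⟩
    choose w hw using fun i => exists_word_idx Y (u i) (hYall i)
    obtain ⟨W, hW1, hW2, hW3⟩ := hD Y.length hYlen w (by
      intro i
      have := hu1 i
      rw [← hw i, List.length_map] at this
      exact this)
    have hloop : ∀ v : Fin m × Bool → G, (∀ k, v k ∈ zs (grp k)) → MLoop T (evw Y.get v W) := by
      intro v hv
      have h1 := hW2 G Y.get v
      subst hY
      exact mtup_loop T _ R' grp hTU (B₀ :: Zs) hZ1 v hv _ h1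
    have hall := saturate_all (space e (D * d0)) (fun k => zs (grp k))
      (Subgroup.closure {x | x ∈ R} : Set G) hsat (fun v => F (evw Y.get v W))
      (fun v k => evw_mem he Y.get v W d0 D hW1 F (h𝓕 F hF) k)
      (fun v hv => hT _ (hloop v hv) F hF)
      (fun p => if p.2 then (g p.1)⁻¹ else g p.1) (by
        rintro ⟨i, b⟩
        cases b
        · simpa using hg i
        · simpa using hg i)
    rw [hW3 G Y.get g] at hall
    simp only [hw] at hall
    exact hall
  -- all words
  have long : ∀ F ∈ 𝓕, ∀ g : Fin m → G, (∀ i, g i ∈ Subgroup.closure {x | x ∈ R}) →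
      ∀ w : Fin m → G, (∀ i, w i ∈ (Subgroup.closure {x | x ∈ P₀ ++ P} : Set G)) →
      F (((List.finRange m).map fun i => w i * g i * (w i)⁻¹).prod) = 0 := by
    intro F hF g hg
    refine saturate_all (space e (2 * m * d0))
      (fun _ => prods (List.replicate l {x | x ∈ P₀ ++ P}))
      (Subgroup.closure {x | x ∈ P₀ ++ P} : Set G) ?_
      (fun w => F (((List.finRange m).map fun i => w i * g i * (w i)⁻¹).prod))
      (fun w k => conj_mem he w g k d0 F (h𝓕 F hF)) ?_
    · intro k F' hF' h0 x hx
      obtain ⟨Y, hY, hprop⟩ := propagate (space e (2 * m * d0))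
        (fun y F hF => he.rtr_mem y _ F hF) (List.replicate l {x | x ∈ P₀ ++ P}) (by
          rw [List.length_replicate, hl]
          exact Nat.lt_succ_of_le (hB _))
      rw [List.mem_replicate] at hY
      rw [hY.2] at hprop
      exact hprop F' ⟨hF', h0⟩ x hx
    · intro w hw
      choose u hu1 hu2 hu3 using fun i => prods_replicate_list (P₀ ++ P) l (w i) (hw i)
      have h1 := short F hF g hg u hu1 hu2
      simp only [hu3] at h1
      exact h1
  -- the whole group
  intro x hx F hF
  obtain ⟨Y, hY, hprop⟩ := propagate (space e d0)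
    (fun y F hF => he.rtr_mem y _ F hF) (List.replicate m (cj (P₀ ++ P) R)) (by
      rw [List.length_replicate, hm]
      exact Nat.lt_succ_of_le (hB _))
  rw [List.mem_replicate] at hY
  rw [hY.2] at hprop
  refine hprop F ⟨h𝓕 F hF, ?_⟩ x hx
  intro p hp
  obtain ⟨f, hf, rfl⟩ := prods_replicate (cj (P₀ ++ P) R) m p hp
  have hf2 : ∀ i, ∃ w g : G, w ∈ Subgroup.closure {x | x ∈ P₀ ++ P} ∧
      g ∈ Subgroup.closure {x | x ∈ R} ∧ f i = w * g * w⁻¹ := by
    intro i
    rcases hf i with h1 | ⟨w, hw, g, hg, h1⟩
    · exact ⟨1, 1, Subgroup.one_mem _, Subgroup.one_mem _, by rw [h1]; simp⟩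
    · exact ⟨w, g, hw, hg, h1⟩
  choose w g hw hg hfe using hf2
  have h1 := long F hF g hg w hw
  simp only [← hfe] at h1
  exact h1

end Pool.Agent.GF
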