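import Pool.Agent.GF.Stm
import Pool.Agent.HZ.Defs

/-!
# Hurwitz moves on lists with fixed and moving elements
-/

set_option autoImplicit false
set_option linter.unusedSectionVars false

namespace Pool.Agent.GF

open Pool.Agent.HZ

/-- the values -/
abbrev vals {G : Type*} (L : List (Bool × G)) : List G := L.map Prod.snd

/-- all elements of the list are moving -/
abbrev Mov {G : Type*} (L : List (Bool × G)) : Prop := ∀ x ∈ L, x.1 = true

/-- a list of elements with the label `b` -/
abbrev lab {G : Type*} (b : Bool) (L : List G) : List (Bool × G) := L.map fun x => (b, x)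

/-- the beginning, consisting of moving elements, of a list in the orbit -/
def MPre {G : Type*} [Group G] (L A : List (Bool × G)) : Prop :=
  ∃ B : List (Bool × G), MReach L (A ++ B)

section
variable {G : Type*} [Group G]

theorem vals_lab (b : Bool) (L : List G) : vals (lab b L) = L := by
  simp [vals, lab, Function.comp_def]

theorem vals_append (A B : List (Bool × G)) : vals (A ++ B) = vals A ++ vals B := List.map_append ..

theorem lab_append (b : Bool) (A B : List G) : lab b (A ++ B) = lab b A ++ lab b B :=
  List.map_append ..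

theorem mov_lab (L : List G) : Mov (lab true L) := by
  intro x hx
  rw [lab, List.mem_map] at hx
  obtain ⟨y, _, rfl⟩ := hx
  rfl

theorem mov_append {A B : List (Bool × G)} (h : Mov A) (h' : Mov B) : Mov (A ++ B) := by
  intro x hx
  rcases List.mem_append.1 hx with hx | hx
  · exact h x hx
  · exact h' x hx

theorem lab_vals_of_mov {L : List (Bool × G)} (h : Mov L) : lab true (vals L) = L := by
  rw [lab, vals, List.map_map]
  have : L.map ((fun x => (true, x)) ∘ Prod.snd) = L.map id := by
    refine List.map_congr_left fun x hx => ?_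
    rw [Function.comp_apply, ← h x hx]
    rfl
  rw [this, List.map_id]

theorem MMove.symm {L L' : List (Bool × G)} (h : MMove L L') : MMove L' L := by
  cases h with
  | r P S a b h =>
    have h1 := MMove.l P S b (a.1, b.2⁻¹ * a.2 * b.2) h.symm
    have e : b.2 * (b.2⁻¹ * a.2 * b.2) * b.2⁻¹ = a.2 := by group
    simp only [e] at h1
    exact h1
  | l P S a b h =>
    have h1 := MMove.r P S (b.1, a.2 * b.2 * a.2⁻¹) a h.symm
    have e : a.2⁻¹ * (a.2 * b.2 * a.2⁻¹) * a.2 = b.2 := by group
    simp only [e] at h1
    exact h1

theorem MReach.refl (L : List (Bool × G)) : MReach L L := Relation.ReflTransGen.refl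

theorem MReach.trans {L L' L'' : List (Bool × G)} (h : MReach L L') (h' : MReach L' L'') :
    MReach L L'' := Relation.ReflTransGen.trans h h'

theorem MReach.of_move {L L' : List (Bool × G)} (h : MMove L L') : MReach L L' :=
  Relation.ReflTransGen.single h

theorem MReach.symm {L L' : List (Bool × G)} (h : MReach L L') : MReach L' L := by
  induction h with
  | refl => exact MReach.refl _
  | tail _ hs ih => exact (MReach.of_move hs.symm).trans ih

theorem MMove.context {L L' : List (Bool × G)} (h : MMove L L') (P S : List (Bool × G)) :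
    MMove (P ++ L ++ S) (P ++ L' ++ S) := by
  cases h with
  | r P' S' a b h =>
    have h1 := MMove.r (P ++ P') (S' ++ S) a b h
    simpa using h1
  | l P' S' a b h =>
    have h1 := MMove.l (P ++ P') (S' ++ S) a b h
    simpa using h1

theorem MReach.context {L L' : List (Bool × G)} (h : MReach L L') (P S : List (Bool × G)) :
    MReach (P ++ L ++ S) (P ++ L' ++ S) := by
  induction h with
  | refl => exact MReach.refl _
  | tail _ hs ih => exact ih.trans (MReach.of_move (hs.context P S))

theorem MReach.append {A A' B B' : List (Bool × G)} (h : MReach A A') (h' : MReach B B') :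
    MReach (A ++ B) (A' ++ B') := by
  have h1 := h.context [] B
  have h2 := h'.context A' []
  simp only [List.nil_append, List.append_nil] at h1 h2
  exact h1.trans h2

theorem MReach.append_left (A : List (Bool × G)) {B B' : List (Bool × G)} (h : MReach B B') :
    MReach (A ++ B) (A ++ B') := (MReach.refl A).append h

theorem MReach.append_right {A A' : List (Bool × G)} (h : MReach A A') (B : List (Bool × G)) :
    MReach (A ++ B) (A' ++ B) := h.append (MReach.refl B)

theorem MReach.cons (a : Bool × G) {B B' : List (Bool × G)} (h : MReach B B') :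
    MReach (a :: B) (a :: B') := h.append_left [a]

theorem MMove.bmove {L L' : List (Bool × G)} (h : MMove L L') : BMove (vals L) (vals L') := by
  cases h with
  | r P S a b h =>
    have h1 := BMove.r (vals P) (vals S) a.2 b.2
    simpa [vals] using h1
  | l P S a b h =>
    have h1 := BMove.l (vals P) (vals S) a.2 b.2
    simpa [vals] using h1

/-- forgetting the labels -/
theorem MReach.breach {L L' : List (Bool × G)} (h : MReach L L') : BReach (vals L) (vals L') := by
  induction h with
  | refl => exact BReach.refl _
  | tail _ hs ih => exact ih.trans (BReach.of_move hs.bmove)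

theorem MMove.length_eq {L L' : List (Bool × G)} (h : MMove L L') : L'.length = L.length := by
  cases h <;> simp

theorem MReach.length_eq {L L' : List (Bool × G)} (h : MReach L L') : L'.length = L.length := by
  induction h with
  | refl => rfl
  | tail _ hs ih => rw [hs.length_eq, ih]

/-- all moves are allowed on moving elements -/
theorem MReach.of_breach {L L' : List G} (h : BReach L L') : MReach (lab true L) (lab true L') := by
  induction h with
  | refl => exact MReach.refl _
  | tail _ hs ih =>
    refine ih.trans (MReach.of_move ?_)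
    cases hs with
    | r P S a b =>
      have h1 := MMove.r (lab true P) (lab true S) (true, a) (true, b) (Or.inl rfl)
      simpa [lab] using h1
    | l P S a b =>
      have h1 := MMove.l (lab true P) (lab true S) (true, a) (true, b) (Or.inl rfl)
      simpa [lab] using h1

/-- images under homomorphisms, with the same labels -/
abbrev mapv {H : Type*} [Group H] (f : G →* H) (L : List (Bool × G)) : List (Bool × H) :=
  L.map fun x => (x.1, f x.2)

theorem vals_mapv {H : Type*} [Group H] (f : G →* H) (L : List (Bool × G)) :
    vals (mapv f L) = (vals L).map f := by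
  simp [vals, mapv, Function.comp_def]

theorem mapv_append {H : Type*} [Group H] (f : G →* H) (A B : List (Bool × G)) :
    mapv f (A ++ B) = mapv f A ++ mapv f B := List.map_append ..

theorem mov_mapv {H : Type*} [Group H] (f : G →* H) {L : List (Bool × G)} (h : Mov L) :
    Mov (mapv f L) := by
  intro x hx
  rw [mapv, List.mem_map] at hx
  obtain ⟨y, hy, rfl⟩ := hx
  exact h y hy

theorem mov_of_mapv {H : Type*} [Group H] (f : G →* H) {L : List (Bool × G)}
    (h : Mov (mapv f L)) : Mov L := fun x hx => h (x.1, f x.2) (List.mem_map.2 ⟨x, hx, rfl⟩)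

theorem mapv_mapv {H K : Type*} [Group H] [Group K] (f : G →* H) (g : H →* K)
    (L : List (Bool × G)) : mapv g (mapv f L) = mapv (g.comp f) L := by
  simp [mapv, Function.comp_def]

theorem MMove.map {H : Type*} [Group H] (f : G →* H) {L L' : List (Bool × G)} (h : MMove L L') :
    MMove (mapv f L) (mapv f L') := by
  cases h with
  | r P S a b h =>
    have h1 := MMove.r (mapv f P) (mapv f S) (a.1, f a.2) (b.1, f b.2) h
    simpa [mapv] using h1
  | l P S a b h =>
    have h1 := MMove.l (mapv f P) (mapv f S) (a.1, f a.2) (b.1, f b.2) h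
    simpa [mapv] using h1

theorem MReach.map {H : Type*} [Group H] (f : G →* H) {L L' : List (Bool × G)}
    (h : MReach L L') : MReach (mapv f L) (mapv f L') := by
  induction h with
  | refl => exact MReach.refl _
  | tail _ hs ih => exact ih.trans (MReach.of_move (hs.map f))

/-- moves lift along homomorphisms -/
theorem MMove.lift {H : Type*} [Group H] (f : G →* H) {M : List (Bool × H)}
    {L : List (Bool × G)} (h : MMove (mapv f L) M) :
    ∃ L' : List (Bool × G), MMove L L' ∧ mapv f L' = M := by
  generalize hK : mapv f L = K at h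
  cases h with
  | r P S a b h =>
    rw [mapv, List.map_eq_append_iff] at hK
    obtain ⟨L1, L2, rfl, h1, h2⟩ := hK
    rw [List.map_eq_cons_iff] at h2
    obtain ⟨a', L3, rfl, rfl, h3⟩ := h2
    rw [List.map_eq_cons_iff] at h3
    obtain ⟨b', L4, rfl, rfl, h4⟩ := h3
    refine ⟨_, MMove.r L1 L4 a' b' h, ?_⟩
    simp [mapv, h1, h4]
  | l P S a b h =>
    rw [mapv, List.map_eq_append_iff] at hK
    obtain ⟨L1, L2, rfl, h1, h2⟩ := hK
    rw [List.map_eq_cons_iff] at h2
    obtain ⟨a', L3, rfl, rfl, h3⟩ := h2
    rw [List.map_eq_cons_iff] at h3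
    obtain ⟨b', L4, rfl, rfl, h4⟩ := h3
    refine ⟨_, MMove.l L1 L4 a' b' h, ?_⟩
    simp [mapv, h1, h4]

theorem MReach.lift {H : Type*} [Group H] (f : G →* H) {M : List (Bool × H)}
    {L : List (Bool × G)} (h : MReach (mapv f L) M) :
    ∃ L' : List (Bool × G), MReach L L' ∧ mapv f L' = M := by
  induction h with
  | refl => exact ⟨L, MReach.refl L, rfl⟩
  | tail _ hs ih =>
    obtain ⟨L', h1, h2⟩ := ih
    rw [← h2] at hs
    obtain ⟨L'', h3, h4⟩ := hs.lift f
    exact ⟨L'', h1.trans (MReach.of_move h3), h4⟩

/-! ### moving one element -/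

/-- an element moves to the right unchanged; it is moving, or it passes only moving elements -/
theorem mmove_right (a : Bool × G) (B : List (Bool × G)) (h : a.1 = true ∨ Mov B) :
    MReach (a :: B) (B.map (fun x => (x.1, a.2 * x.2 * a.2⁻¹)) ++ [a]) := by
  induction B with
  | nil => exact MReach.refl _
  | cons b B ih =>
    have h1 := MReach.of_move (MMove.l [] B a b (h.imp id fun h => h b (List.mem_cons_self ..)))
    simp only [List.nil_append] at h1
    exact h1.trans ((ih (h.imp id fun h x hx => h x (List.mem_cons_of_mem _ hx))).cons _)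

/-- an element moves to the left unchanged; it is moving, or it passes only moving elements -/
theorem mmove_left (a : Bool × G) (B : List (Bool × G)) (h : a.1 = true ∨ Mov B) :
    MReach (B ++ [a]) (a :: B.map (fun x => (x.1, a.2⁻¹ * x.2 * a.2))) := by
  induction B with
  | nil => exact MReach.refl _
  | cons b B ih =>
    have h1 := MReach.of_move (MMove.r [] (B.map (fun x => (x.1, a.2⁻¹ * x.2 * a.2))) b a
      (h.symm.imp (fun h => h b (List.mem_cons_self ..)) id))
    simp only [List.nil_append] at h1
    exact ((ih (h.imp id fun h x hx => h x (List.mem_cons_of_mem _ hx))).cons b).trans h1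

/-- an element moves to the right, the others are unchanged: `(m, B) → (B, (∏ B)⁻¹ m (∏ B))` -/
theorem mpass_right (a : Bool × G) (B : List (Bool × G)) (h : a.1 = true ∨ Mov B) :
    MReach (a :: B) (B ++ [(a.1, (vals B).prod⁻¹ * a.2 * (vals B).prod)]) := by
  induction B generalizing a with
  | nil =>
    have e : (vals ([] : List (Bool × G))).prod⁻¹ * a.2 * (vals ([] : List (Bool × G))).prod =
        a.2 := by simp
    rw [e]
    exact MReach.refl _
  | cons b B ih =>
    have h1 := MReach.of_move (MMove.r [] B a b (h.imp id fun h => h b (List.mem_cons_self ..)))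
    simp only [List.nil_append] at h1
    have h2 := (ih (a.1, b.2⁻¹ * a.2 * b.2)
      (h.imp id fun h x hx => h x (List.mem_cons_of_mem _ hx))).cons b
    have e : (vals B).prod⁻¹ * (b.2⁻¹ * a.2 * b.2) * (vals B).prod =
        (vals (b :: B)).prod⁻¹ * a.2 * (vals (b :: B)).prod := by
      have hc : vals (b :: B) = b.2 :: vals B := rfl
      rw [hc, List.prod_cons]
      group
    simp only [e] at h2
    exact h1.trans h2

/-- an element moves to the left, the others are unchanged: `(B, m) → ((∏ B) m (∏ B)⁻¹, B)` -/
theorem mpass_left (a : Bool × G) (B : List (Bool × G)) (h : a.1 = true ∨ Mov B) :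
    MReach (B ++ [a]) ((a.1, (vals B).prod * a.2 * (vals B).prod⁻¹) :: B) := by
  have h1 := (mpass_right (a.1, (vals B).prod * a.2 * (vals B).prod⁻¹) B h).symm
  have e : (vals B).prod⁻¹ * ((vals B).prod * a.2 * (vals B).prod⁻¹) * (vals B).prod = a.2 := by
    group
  simp only [e] at h1
  exact h1

/-! ### beginnings -/

theorem MPre.refl (L : List (Bool × G)) : MPre L L :=
  ⟨[], by rw [List.append_nil]; exact MReach.refl L⟩

theorem MPre.of_reach {L L' : List (Bool × G)} (h : MReach L L') : MPre L L' :=
  ⟨[], by rw [List.append_nil]; exact h⟩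

theorem MPre.trans {L L' L'' : List (Bool × G)} (h : MPre L L') (h' : MPre L' L'') :
    MPre L L'' := by
  obtain ⟨B, hB⟩ := h
  obtain ⟨C, hC⟩ := h'
  refine ⟨C ++ B, ?_⟩
  have h1 := hC.append_right B
  rw [List.append_assoc] at h1
  exact hB.trans h1

theorem MPre.append_right (A B : List (Bool × G)) : MPre (A ++ B) A := ⟨B, MReach.refl _⟩

/-- a sublist which contains all the fixed elements can be moved to the front unchanged -/
theorem MPre.filter (L : List (Bool × G)) (p : Bool × G → Bool) (hp : ∀ x, x.1 = false → p x = true) :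
    MPre L (L.filter p) := by
  induction L with
  | nil => exact MPre.refl _
  | cons a L ih =>
    obtain ⟨B, hB⟩ := ih
    have h1 := hB.cons a
    by_cases ha : p a = true
    · rw [List.filter_cons_of_pos ha]
      exact ⟨B, h1⟩
    · rw [List.filter_cons_of_neg ha]
      have ha' : a.1 = true := by
        by_contra hcon
        exact ha (hp a (by simpa using hcon))
      have h2 := (mpass_right a (L.filter p) (Or.inl ha')).append_right B
      rw [List.append_assoc] at h2
      exact ⟨_, h1.trans h2⟩

theorem MPre.map {H : Type*} [Group H] (f : G →* H) {L A : List (Bool × G)} (h : MPre L A) :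
    MPre (mapv f L) (mapv f A) := by
  obtain ⟨B, hB⟩ := h
  refine ⟨mapv f B, ?_⟩
  rw [← mapv_append]
  exact hB.map f

theorem MPre.lift {H : Type*} [Group H] (f : G →* H) {M : List (Bool × H)}
    {L : List (Bool × G)} (h : MPre (mapv f L) M) :
    ∃ A : List (Bool × G), MPre L A ∧ mapv f A = M := by
  obtain ⟨B, hB⟩ := h
  obtain ⟨L', h1, h2⟩ := hB.lift f
  rw [mapv, List.map_eq_append_iff] at h2
  obtain ⟨L1, L2, rfl, h3, _⟩ := h2
  exact ⟨L1, ⟨L2, h1⟩, h3⟩

theorem mloop_iff (L : List (Bool × G)) (γ : G) :
    MLoop L γ ↔ ∃ A, MPre L A ∧ Mov A ∧ (vals A).prod = γ :=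
  ⟨fun ⟨A, B, h, h', e⟩ => ⟨A, ⟨B, h⟩, h', e⟩, fun ⟨A, ⟨B, h⟩, h', e⟩ => ⟨A, B, h, h', e⟩⟩

theorem MLoop.map {H : Type*} [Group H] (f : G →* H) {L : List (Bool × G)} {γ : G}
    (h : MLoop L γ) : MLoop (mapv f L) (f γ) := by
  rw [mloop_iff] at h ⊢
  obtain ⟨A, h1, h2, rfl⟩ := h
  exact ⟨mapv f A, h1.map f, mov_mapv f h2, by rw [vals_mapv, List.prod_hom]⟩

theorem MLoop.of_pre {L L' : List (Bool × G)} {γ : G} (h : MPre L L') (h' : MLoop L' γ) :
    MLoop L γ := by
  rw [mloop_iff] at h' ⊢
  obtain ⟨A, h1, h2, e⟩ := h'
  exact ⟨A, h.trans h1, h2, e⟩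

/-- the product of any consecutive moving elements of a list in the orbit is a moving loop -/
theorem MLoop.of_block {L A B C : List (Bool × G)} (h : MReach L (A ++ (B ++ C))) (hB : Mov B) :
    MLoop L (vals B).prod := by
  have key : ∀ A : List (Bool × G), ∃ A' : List (Bool × G), MReach (A ++ B) (B ++ A') := by
    intro A
    induction A with
    | nil => exact ⟨[], by rw [List.append_nil]; exact MReach.refl _⟩
    | cons a A ih =>
      obtain ⟨A', hA'⟩ := ih
      refine ⟨(a.1, (vals B).prod⁻¹ * a.2 * (vals B).prod) :: A', ?_⟩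
      have h1 := hA'.cons a
      have h2 := (mpass_right a B (Or.inr hB)).append_right A'
      rw [List.append_assoc] at h2
      exact h1.trans h2
  obtain ⟨A', hA'⟩ := key A
  refine ⟨B, A' ++ C, ?_, hB, rfl⟩
  have h1 := hA'.append_right C
  rw [List.append_assoc, List.append_assoc] at h1
  exact h.trans h1

/-! ### blocks -/

/-- A labelled block: if the label is `true` (moving) then all elements are moving. -/
def Blk (b : Bool × List (Bool × G)) : Prop := b.1 = true → Mov b.2

/-- the product of a labelled block -/
def bprod (b : Bool × List (Bool × G)) : Bool × G := (b.1, (vals b.2).prod)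

/-- the list of the elements of the blocks -/
abbrev flat (Bs : List (Bool × List (Bool × G))) : List (Bool × G) := (Bs.map Prod.snd).flatten

/-- conjugation of all elements of a block -/
def cblk (c : G) (B : List (Bool × G)) : List (Bool × G) := B.map fun x => (x.1, c⁻¹ * x.2 * c)

/-- conjugation of all elements of a block -/
def cblk' (c : G) (B : List (Bool × G)) : List (Bool × G) := B.map fun x => (x.1, c * x.2 * c⁻¹)

theorem vals_cblk (c : G) (B : List (Bool × G)) :
    (vals (cblk c B)).prod = c⁻¹ * (vals B).prod * c := by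
  rw [← conj_prod]
  simp [vals, cblk, Function.comp_def]

theorem vals_cblk' (c : G) (B : List (Bool × G)) :
    (vals (cblk' c B)).prod = c * (vals B).prod * c⁻¹ := by
  rw [← conj_prod']
  simp [vals, cblk', Function.comp_def]

theorem mov_cblk {c : G} {B : List (Bool × G)} (h : Mov B) : Mov (cblk c B) := by
  intro x hx
  rw [cblk, List.mem_map] at hx
  obtain ⟨y, hy, rfl⟩ := hx
  exact h y hy

theorem mov_cblk' {c : G} {B : List (Bool × G)} (h : Mov B) : Mov (cblk' c B) := by
  intro x hx
  rw [cblk', List.mem_map] at hx
  obtain ⟨y, hy, rfl⟩ := hx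
  exact h y hy

/-- A block passes a block: `(A, B) → (B, (∏ B)⁻¹ A (∏ B))`, if one of them is moving. -/
theorem block_right (A B : List (Bool × G)) (h : Mov A ∨ Mov B) :
    MReach (A ++ B) (B ++ cblk (vals B).prod A) := by
  induction A with
  | nil => simpa [cblk] using MReach.refl B
  | cons x A ih =>
    have h1 := (ih (h.imp (fun h y hy => h y (List.mem_cons_of_mem _ hy)) id)).cons x
    have h2 := (mpass_right x B (h.imp (fun h => h x (List.mem_cons_self ..)) id)).append_right
      (cblk (vals B).prod A)
    simp only [List.append_assoc, List.cons_append, List.nil_append] at h1 h2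
    exact h1.trans h2

/-- A block passes a block: `(A, B) → ((∏ A) B (∏ A)⁻¹, A)`, if one of them is moving. -/
theorem block_left (A B : List (Bool × G)) (h : Mov A ∨ Mov B) :
    MReach (A ++ B) (cblk' (vals A).prod B ++ A) := by
  induction B with
  | nil => simpa [cblk'] using MReach.refl A
  | cons x B ih =>
    have h1 := (mpass_left x A (h.symm.imp (fun h => h x (List.mem_cons_self ..)) id)).append_right B
    have h2 := (ih (h.imp id fun h y hy => h y (List.mem_cons_of_mem _ hy))).cons
      (x.1, (vals A).prod * x.2 * (vals A).prod⁻¹)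
    simp only [List.append_assoc, List.cons_append, List.nil_append] at h1 h2
    exact h1.trans h2

/-- Blocks move like their products. -/
theorem mblocks_move {Bs : List (Bool × List (Bool × G))} {M : List (Bool × G)}
    (hBs : ∀ b ∈ Bs, Blk b) (h : MMove (Bs.map bprod) M) :
    ∃ Cs : List (Bool × List (Bool × G)), (∀ b ∈ Cs, Blk b) ∧ Cs.map bprod = M ∧
      MReach (flat Bs) (flat Cs) := by
  generalize hK : Bs.map bprod = K at h
  cases h with
  | r P S a b h =>
    rw [List.map_eq_append_iff] at hK
    obtain ⟨L1, L2, rfl, rfl, h2⟩ := hK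
    rw [List.map_eq_cons_iff] at h2
    obtain ⟨a', L3, rfl, rfl, h3⟩ := h2
    rw [List.map_eq_cons_iff] at h3
    obtain ⟨b', L4, rfl, rfl, rfl⟩ := h3
    have ha : Blk a' := hBs a' (by simp)
    have hb : Blk b' := hBs b' (by simp)
    refine ⟨L1 ++ b' :: (a'.1, cblk (vals b'.2).prod a'.2) :: L4, ?_, ?_, ?_⟩
    · intro c hc
      simp only [List.mem_append, List.mem_cons] at hc
      rcases hc with hc | rfl | rfl | hc
      · exact hBs c (by simp [hc])
      · exact hb
      · exact fun h' => mov_cblk (ha h')
      · exact hBs c (by simp [hc])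
    · simp [bprod, vals_cblk]
    · have key := block_right a'.2 b'.2 (h.imp ha hb)
      have h1 := key.context (flat L1) (flat L4)
      simpa [flat] using h1
  | l P S a b h =>
    rw [List.map_eq_append_iff] at hK
    obtain ⟨L1, L2, rfl, rfl, h2⟩ := hK
    rw [List.map_eq_cons_iff] at h2
    obtain ⟨a', L3, rfl, rfl, h3⟩ := h2
    rw [List.map_eq_cons_iff] at h3
    obtain ⟨b', L4, rfl, rfl, rfl⟩ := h3
    have ha : Blk a' := hBs a' (by simp)
    have hb : Blk b' := hBs b' (by simp)
    refine ⟨L1 ++ (b'.1, cblk' (vals a'.2).prod b'.2) :: a' :: L4, ?_, ?_, ?_⟩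
    · intro c hc
      simp only [List.mem_append, List.mem_cons] at hc
      rcases hc with hc | rfl | rfl | hc
      · exact hBs c (by simp [hc])
      · exact fun h' => mov_cblk' (hb h')
      · exact ha
      · exact hBs c (by simp [hc])
    · simp [bprod, vals_cblk']
    · have key := block_left a'.2 b'.2 (h.imp ha hb)
      have h1 := key.context (flat L1) (flat L4)
      simpa [flat] using h1

theorem mblocks_reach {Bs : List (Bool × List (Bool × G))} {M : List (Bool × G)}
    (hBs : ∀ b ∈ Bs, Blk b) (h : MReach (Bs.map bprod) M) :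
    ∃ Cs : List (Bool × List (Bool × G)), (∀ b ∈ Cs, Blk b) ∧ Cs.map bprod = M ∧
      MReach (flat Bs) (flat Cs) := by
  induction h with
  | refl => exact ⟨Bs, hBs, rfl, MReach.refl _⟩
  | tail _ hs ih =>
    obtain ⟨Cs, h0, h1, h2⟩ := ih
    rw [← h1] at hs
    obtain ⟨Ds, h3, h4, h5⟩ := mblocks_move h0 hs
    exact ⟨Ds, h3, h4, h2.trans h5⟩

/-- moving loops of the list of the products of the blocks are moving loops -/
theorem mblocks_loop {Bs : List (Bool × List (Bool × G))} {γ : G} (hBs : ∀ b ∈ Bs, Blk b)
    (h : MLoop (Bs.map bprod) γ) : MLoop (flat Bs) γ := by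
  obtain ⟨A, B, h1, hA, rfl⟩ := h
  obtain ⟨Cs, h0, h2, h3⟩ := mblocks_reach hBs h1
  rw [List.map_eq_append_iff] at h2
  obtain ⟨C1, C2, rfl, rfl, rfl⟩ := h2
  refine ⟨flat C1, flat C2, ?_, ?_, ?_⟩
  · rw [flat, flat, ← List.flatten_append, ← List.map_append]
    exact h3
  · intro x hx
    rw [flat, List.mem_flatten] at hx
    obtain ⟨l, hl, hx⟩ := hx
    rw [List.mem_map] at hl
    obtain ⟨c, hc, rfl⟩ := hl
    exact h0 c (List.mem_append_left _ hc) (hA (bprod c) (List.mem_map.2 ⟨c, hc, rfl⟩)) x hx
  · clear h3 h0 hA h1 hBs
    induction C1 with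
    | nil => rfl
    | cons c C1 ih =>
      simp only [flat, List.map_cons, List.flatten_cons, List.map_append,
        List.prod_append, List.prod_cons] at ih ⊢
      rw [ih]
      rfl

end

end Pool.Agent.GF
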