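import Pool.Agent.GF.Defs

/-!
# Local systems on punctured discs with fixed and moving punctures: statements of the modules

Paper: /team-store/GC_FP_h33.md.  The modules are adapted copies of `Pool/Agent/HZ/*` (the case without
fixed punctures).  Module `X`: `theorem thm_X (h.. : St_..) : St_X`.
-/

set_option autoImplicit false

namespace Pool.Agent.GF

open Matrix Module Pool.Agent.HZ

/-- hypothesis (Q): the eigenvalues of `ρ γ` are roots of unity for all moving loops `γ` -/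
def HypQ {r n : ℕ} (Φ : Finset (Fin n)) (ρ : FreeGroup (Fin n) →* GL (Fin r) ℂ) : Prop :=
  ∀ γ, IsMovingLoop Φ γ → Quasi (ρ γ)

/-- the normal subgroup generated by the loops around the punctures outside `T` -/
abbrev KK {n : ℕ} (T : Finset (Fin n)) : Subgroup (FreeGroup (Fin n)) :=
  Subgroup.normalClosure {x | ∃ i ∉ T, x = FreeGroup.of i}

/-- **Main** (helper33; copy of HZ/Main). -/
def St_Main : Prop := ∀ r : ℕ, ∃ N : ℕ, ∀ (n : ℕ) (Φ : Finset (Fin n))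
    (ρ : FreeGroup (Fin n) →* GL (Fin r) ℂ), HypQ Φ ρ →
    ∃ (S : Finset (Fin n)) (H : Subgroup (GL (Fin r) ℂ)), S.card ≤ N ∧ Disjoint Φ S ∧
      H ≤ ρ.range ∧ (∀ γ ∈ ρ.range, ∀ h ∈ H, γ * h * γ⁻¹ ∈ H) ∧
      (∀ i ∉ Φ ∪ S, ρ (FreeGroup.of i) ∈ H) ∧ ∀ h ∈ H, Quasi h

/-! ### the orbits -/

/-- `β` is the automorphism given by a mixed braid up to a permutation of the labels -/
def IsGBraid {n : ℕ} (Φ : Finset (Fin n)) (β : FreeGroup (Fin n) →* FreeGroup (Fin n)) : Prop :=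
  ∃ L : List (Bool × FreeGroup (Fin n)), MReach (lstd Φ) L ∧ vals L = (std n).map β

/-- finiteness of the orbit under `IsGBraid` -/
def FinGOrb {r n : ℕ} (Φ : Finset (Fin n)) (ρ : FreeGroup (Fin n) →* GL (Fin r) ℂ) : Prop :=
  {χ : FreeGroup (Fin n) → ℂ | ∃ β : FreeGroup (Fin n) →* FreeGroup (Fin n), IsGBraid Φ β ∧
    χ = fun γ => (ρ (β γ) : Matrix (Fin r) (Fin r) ℂ).trace}.Finite

/-- **Hon** (1 h). `IsMBraid` (labels at the original places) gives the same finiteness as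
`IsGBraid`. `→`: for each of the finitely many patterns of labels `p` (a list of `n` labels) which
occurs choose one `β_p`, `MReach (lstd Φ) (p with the elements β_p (x_i))`. From `MReach.symm` and
`MReach.lift` along `β_p` one gets `γ_p` with `β_p ∘ γ_p = id` and
`MReach (p with the elements x_i) (mapv γ_p (lstd Φ))`, and once more (lift along `γ_p`) a `δ_p` with
`γ_p ∘ δ_p = id`; so `δ_p = β_p` and `γ_p ∘ β_p = id`. For every `β` with the pattern `p` the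
homomorphism `h = β ∘ γ_p` is an `IsMBraid` and `β = h ∘ β_p`: the characters with the pattern `p` are
the images of the finite orbit under `χ ↦ χ ∘ β_p`. `←`: subset. needs: nothing -/
def St_Hon : Prop := ∀ (r n : ℕ) (Φ : Finset (Fin n)) (ρ : FreeGroup (Fin n) →* GL (Fin r) ℂ),
  FinMOrb Φ ρ ↔ FinGOrb Φ ρ

/-- **D1** (45 min). Restriction to a subdisc which contains all the fixed punctures: copy of
`HZ.finOrb_inc` (HZ/RedD) with `MPre.filter` for `Pre.sublist`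
(`lstd Φ` filtered by `T` is the image of `lstd (res Φ T)` under `inc T`). needs: nothing -/
def St_D1 : Prop := ∀ (r n : ℕ) (Φ T : Finset (Fin n)) (ρ : FreeGroup (Fin n) →* GL (Fin r) ℂ),
  Φ ⊆ T → FinGOrb Φ ρ → FinGOrb (res Φ T) (ρ.comp (inc T))

/-- **D2** (1.5 h). Copy of HZ/RedA and of `HZ.finOrb_of_inc` (HZ/RedD). The filter `nt` removes only the
MOVING entries which are trivial modulo `H` (`fun x => !x.1 || decide (x.2 ≠ 1)`). HZ/RedB, RedC are used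
as they are. needs: nothing -/
def St_D2 : Prop := ∀ (r n : ℕ) (Φ T : Finset (Fin n)) (ρ : FreeGroup (Fin n) →* GL (Fin r) ℂ)
  (H : Subgroup (GL (Fin r) ℂ)) [Finite H], (∀ γ ∈ ρ.range, ∀ h ∈ H, γ * h * γ⁻¹ ∈ H) →
  (∀ i, i ∈ T ↔ i ∈ Φ ∨ ρ (FreeGroup.of i) ∉ H) →
  FinGOrb (res Φ T) (ρ.comp (inc T)) → FinGOrb Φ ρ

/-- **Lp** (20 min). Moving loops of a subdisc which contains the fixed punctures are moving loops.
needs: nothing -/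
def St_Lp : Prop := ∀ (n : ℕ) (Φ T : Finset (Fin n)), Φ ⊆ T → ∀ γ : FreeGroup (Fin T.card),
  IsMovingLoop (res Φ T) γ → IsMovingLoop Φ (inc T γ)

/-- **Red** (1 h). Copy of HZ/RedE (`exists_cred` of HZ/RedS and the rest as they are). For the last part:
`res Φ (Φ ∪ S)` has `Φ.card` elements and `(Φ ∪ S).card ≤ Φ.card + N`.
needs: Main, Hon, D1, D2, Lp -/
def St_Red : Prop := ∀ r : ℕ, ∃ N : ℕ,
  (∀ (n : ℕ) (Φ : Finset (Fin n)) (ρ : FreeGroup (Fin n) →* GL (Fin r) ℂ), HypQ Φ ρ →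
    ∃ S : Finset (Fin n), S.card ≤ N ∧ Disjoint Φ S ∧ (∀ x ∈ KK (Φ ∪ S), Quasi (ρ x)) ∧
      (CRed ρ.range → Finite ((KK (Φ ∪ S)).map ρ)) ∧
      (FinMOrb Φ ρ ↔ FinMOrb (res Φ (Φ ∪ S)) (ρ.comp (inc (Φ ∪ S))))) ∧
  ∀ m : ℕ, (∀ (n : ℕ) (Φ : Finset (Fin n)), Φ.card = m → n ≤ m + N →
      ∀ ρ : FreeGroup (Fin n) →* GL (Fin r) ℂ, HypQ Φ ρ → FinMOrb Φ ρ) →
    ∀ (n : ℕ) (Φ : Finset (Fin n)), Φ.card = m → ∀ ρ : FreeGroup (Fin n) →* GL (Fin r) ℂ,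
      HypQ Φ ρ → FinMOrb Φ ρ

/-! ### Clifford theory and the theorem -/

/-- **Clf** (1 h). Copy of HZ/Final, `HZ.clf_final` (HZ/ClfL) and HZ/ClfM; `clf_of_finite`, `virt_of_one`,
`mult_dvd`, `quasi_second` etc. are used as they are (for the set `Φ ∪ S`). needs: Main -/
def St_Clf : Prop := ∀ r : ℕ, 0 < r → ∃ N : ℕ, ∀ (n : ℕ) (Φ : Finset (Fin n))
    (ρ : FreeGroup (Fin n) →* GL (Fin r) ℂ), HypQ Φ ρ → Irr ρ.range →
    ((N < Nat.card {i | i ∉ Φ ∧ ∃ z : ℂ, (finrank ℂ (Module.End.eigenspace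
        (Matrix.mulVecLin (ρ (FreeGroup.of i) : Matrix (Fin r) (Fin r) ℂ)) z)).Coprime r} ∨
      (r.Prime ∧ N < Nat.card {i | i ∉ Φ ∧ ∀ z : ℂ,
        (ρ (FreeGroup.of i) : Matrix (Fin r) (Fin r) ℂ) ≠ z • 1})) → VirtAb ρ.range) ∧
    ∃ (S : Finset (Fin n)) (H : Subgroup (FreeGroup (Fin n))) (d e : ℕ) (α : H →* GL (Fin d) ℂ)
      (β : H →* GL (Fin e) ℂ),
      S.card ≤ N ∧ Disjoint Φ S ∧ IndTensor ρ H β α ∧ Finite α.range ∧
      KK (Φ ∪ S) ≤ β.ker.map H.subtype ∧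
      (∀ (h : H) (g γ : FreeGroup (Fin n)) (k : ℕ), IsMovingLoop Φ γ →
        (h : FreeGroup (Fin n)) = g * γ ^ k * g⁻¹ → Quasi (β h)) ∧
      (∀ i ∉ Φ ∪ S, ∀ z : ℂ, e ∣ finrank ℂ (Module.End.eigenspace
        (Matrix.mulVecLin (ρ (FreeGroup.of i) : Matrix (Fin r) (Fin r) ℂ)) z)) ∧
      (N < Nat.card {i | i ∉ Φ ∧ ∀ z : ℂ,
        (ρ (FreeGroup.of i) : Matrix (Fin r) (Fin r) ℂ) ≠ z • 1} → 2 * e ≤ r)

/-- **Mrg** (1 h). The structure theorem. Copy of HZ/Mrg (one set `S₁ ∪ S₂`; `FinMOrb` for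
`Φ ∪ S₁ ⊆ Φ ∪ S₁ ∪ S₂`: copy of `HZ.finOrb_mono` or directly from D1, D2 for the subdisc).
needs: Red, Clf, Hon, D1 -/
def St_Mrg : Prop := ∀ r : ℕ, 0 < r → ∃ N : ℕ,
  (∀ (n : ℕ) (Φ : Finset (Fin n)) (ρ : FreeGroup (Fin n) →* GL (Fin r) ℂ), HypQ Φ ρ →
    ∃ S : Finset (Fin n), S.card ≤ N ∧ Disjoint Φ S ∧ (∀ x ∈ KK (Φ ∪ S), Quasi (ρ x)) ∧
      (CRed ρ.range → Finite ((KK (Φ ∪ S)).map ρ)) ∧
      (FinMOrb Φ ρ ↔ FinMOrb (res Φ (Φ ∪ S)) (ρ.comp (inc (Φ ∪ S)))) ∧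
      (Irr ρ.range → ∃ (H : Subgroup (FreeGroup (Fin n))) (d e : ℕ) (α : H →* GL (Fin d) ℂ)
        (β : H →* GL (Fin e) ℂ), IndTensor ρ H β α ∧ Finite α.range ∧
        KK (Φ ∪ S) ≤ β.ker.map H.subtype ∧
        (∀ (h : H) (g γ : FreeGroup (Fin n)) (k : ℕ), IsMovingLoop Φ γ →
          (h : FreeGroup (Fin n)) = g * γ ^ k * g⁻¹ → Quasi (β h)) ∧
        (∀ i ∉ Φ ∪ S, ∀ z : ℂ, e ∣ finrank ℂ (Module.End.eigenspace
          (Matrix.mulVecLin (ρ (FreeGroup.of i) : Matrix (Fin r) (Fin r) ℂ)) z)) ∧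
        (N < Nat.card {i | i ∉ Φ ∧ ∀ z : ℂ,
          (ρ (FreeGroup.of i) : Matrix (Fin r) (Fin r) ℂ) ≠ z • 1} → 2 * e ≤ r))) ∧
  (∀ (n : ℕ) (Φ : Finset (Fin n)) (ρ : FreeGroup (Fin n) →* GL (Fin r) ℂ), HypQ Φ ρ →
    Irr ρ.range →
    (N < Nat.card {i | i ∉ Φ ∧ ∃ z : ℂ, (finrank ℂ (Module.End.eigenspace
        (Matrix.mulVecLin (ρ (FreeGroup.of i) : Matrix (Fin r) (Fin r) ℂ)) z)).Coprime r} ∨
      (r.Prime ∧ N < Nat.card {i | i ∉ Φ ∧ ∀ z : ℂ,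
        (ρ (FreeGroup.of i) : Matrix (Fin r) (Fin r) ℂ) ≠ z • 1})) → VirtAb ρ.range) ∧
  ∀ m : ℕ, (∀ (n : ℕ) (Φ : Finset (Fin n)), Φ.card = m → n ≤ m + N →
      ∀ ρ : FreeGroup (Fin n) →* GL (Fin r) ℂ, HypQ Φ ρ → FinMOrb Φ ρ) →
    ∀ (n : ℕ) (Φ : Finset (Fin n)), Φ.card = m → ∀ ρ : FreeGroup (Fin n) →* GL (Fin r) ℂ,
      HypQ Φ ρ → FinMOrb Φ ρ

end Pool.Agent.GF
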