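import Pool.Agent.GF.Core
import Pool.Agent.GF.St
import Pool.Agent.HZ.Main

/-!
# Almost all the local monodromies at the moving punctures are in a small normal subgroup
-/

set_option autoImplicit false

namespace Pool.Agent.GF

open Pool.Agent.HZ Helper12.Sc Matrix Module Polynomial

section group
variable {G : Type} [Group G]

open Classical in
/-- the number of moving entries outside a normalised subgroup is invariant -/
theorem mcount_move {N : Subgroup G} {L L' : List (Bool × G)} (h : MMove L L')
    (hN : Nrm N (vals L)) :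
    L'.countP (fun x => x.1 && decide (x.2 ∉ N)) = L.countP (fun x => x.1 && decide (x.2 ∉ N)) := by
  cases h with
  | r P S a b h =>
    have hb : b.2 ∈ Subgroup.closure {x | x ∈ vals (P ++ a :: b :: S)} :=
      Subgroup.subset_closure (by simp [vals])
    have h1 : b.2⁻¹ * a.2 * b.2 ∈ N ↔ a.2 ∈ N := by
      have := hN.iff b.2⁻¹ (Subgroup.inv_mem _ hb) a.2
      rw [inv_inv] at this
      exact this
    simp only [List.countP_append, List.countP_cons, h1]
    omega
  | l P S a b h =>
    have ha : a.2 ∈ Subgroup.closure {x | x ∈ vals (P ++ a :: b :: S)} :=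
      Subgroup.subset_closure (by simp [vals])
    have h1 : a.2 * b.2 * a.2⁻¹ ∈ N ↔ b.2 ∈ N := hN.iff a.2 ha b.2
    simp only [List.countP_append, List.countP_cons, h1]
    omega

open Classical in
theorem mcount_reach {N : Subgroup G} {L L' : List (Bool × G)} (h : MReach L L')
    (hN : Nrm N (vals L)) :
    L'.countP (fun x => x.1 && decide (x.2 ∉ N)) = L.countP (fun x => x.1 && decide (x.2 ∉ N)) := by
  have key : Nrm N (vals L') ∧
      L'.countP (fun x => x.1 && decide (x.2 ∉ N)) =
        L.countP (fun x => x.1 && decide (x.2 ∉ N)) := by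
    induction h with
    | refl => exact ⟨hN, rfl⟩
    | tail _ hs ih =>
      refine ⟨?_, (mcount_move hs ih.1).trans ih.2⟩
      intro a ha
      exact ih.1 a (hs.bmove.closure_le ha)
  exact key.2

end group

theorem vals_lstd {n : ℕ} (Φ : Finset (Fin n)) : vals (lstd Φ) = std n := by
  simp [vals, lstd, std, Function.comp_def]

/-- **Main.** Almost all the local monodromies at the moving punctures of a local system on a
punctured disc whose moving loops have only roots of unity as eigenvalues generate a normal subgroup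
all of whose elements have only roots of unity as eigenvalues. -/
theorem thm_Main : St_Main := by
  classical
  intro r
  obtain ⟨N, hN⟩ := mcore (fun d => (6 * r ^ 2 + 1) ^ d) (d0 r)
  refine ⟨N, ?_⟩
  intro n Φ ρ hρ
  have hrange : Subgroup.closure {x | x ∈ (std n).map ρ} = ρ.range := by
    have h1 : {x | x ∈ (std n).map ρ} = ρ '' {x | x ∈ std n} := by
      ext x
      simp
    rw [h1, ← MonoidHom.map_closure, closure_std, MonoidHom.range_eq_map]
  have hfg : (ρ.range).FG := by
    rw [← hrange, Subgroup.fg_iff]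
    exact ⟨_, rfl, List.finite_toSet _⟩
  obtain ⟨M, hM, hexp⟩ := exists_exponent ρ.range hfg
  obtain ⟨σ, σ', hσ, horb⟩ := exists_auts M hM
  have hvT : vals (mapv ρ (lstd Φ)) = (std n).map ρ := by rw [vals_mapv, vals_lstd]
  obtain ⟨P₀, P, R, hPR, hPlen, hzero⟩ := hN (GL (Fin r) ℂ) (Ix r) (cr σ σ') (good_cr σ σ')
    (finrank_cr σ σ') {F | ∃ i j, F = Es σ σ' i j} (by
      rintro F ⟨i, j, rfl⟩
      exact Es_mem σ σ' i j) (mapv ρ (lstd Φ)) (by
      rintro γ hγ F ⟨i, j, rfl⟩
      rw [mloop_iff] at hγ
      obtain ⟨A, hA, hAm, rfl⟩ := hγ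
      obtain ⟨A', hA', rfl⟩ := hA.lift ρ
      rw [vals_mapv, List.prod_hom]
      have hsl : IsMovingLoop Φ (vals A').prod :=
        (mloop_iff _ _).2 ⟨A', hA', mov_of_mapv ρ hAm, rfl⟩
      refine Es_zero σ σ' M hσ _ ?_ i j
      intro z hz
      exact hexp _ ⟨_, rfl⟩ z hz (hρ _ hsl z hz))
  have hvals : vals (lab false P₀ ++ lab true (P ++ R)) = (P₀ ++ P) ++ R := by
    rw [vals_append, vals_lab, vals_lab, List.append_assoc]
  have hPRc : Subgroup.closure {x | x ∈ (P₀ ++ P) ++ R} = ρ.range := by
    rw [← hvals, hPR.breach.closure_eq, hvT, hrange]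
  have hnrm : Nrm (Subgroup.closure (cj (P₀ ++ P) R)) (vals (mapv ρ (lstd Φ))) := by
    intro a ha
    rw [hvT, hrange, ← hPRc] at ha
    exact nrm_cj (P₀ ++ P) R a ha
  refine ⟨Finset.univ.filter fun i => i ∉ Φ ∧
    ρ (FreeGroup.of i) ∉ Subgroup.closure (cj (P₀ ++ P) R),
    Subgroup.closure (cj (P₀ ++ P) R), ?_, ?_, ?_, ?_, ?_, ?_⟩
  · have h1 := mcount_reach hPR hnrm
    have h2 : (mapv ρ (lstd Φ)).countP
        (fun x => x.1 && decide (x.2 ∉ Subgroup.closure (cj (P₀ ++ P) R))) =
        (Finset.univ.filter fun i => i ∉ Φ ∧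
          ρ (FreeGroup.of i) ∉ Subgroup.closure (cj (P₀ ++ P) R)).card := by
      rw [lstd, mapv, List.map_map, List.countP_map, List.countP_eq_length_filter]
      rw [Finset.card_def, Finset.filter_val]
      simp [Function.comp_def, Finset.univ, Fintype.elems]
    rw [← h2, ← h1, lab_append, List.countP_append, List.countP_append]
    have h3 : (lab true R).countP
        (fun x => x.1 && decide (x.2 ∉ Subgroup.closure (cj (P₀ ++ P) R))) = 0 := by
      rw [List.countP_eq_zero]
      intro x hx
      rw [lab, List.mem_map] at hx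
      obtain ⟨y, hy, rfl⟩ := hx
      have : y ∈ Subgroup.closure (cj (P₀ ++ P) R) :=
        Subgroup.subset_closure (cj_right (P₀ ++ P) R y (Subgroup.subset_closure hy))
      simpa using this
    have h4 : (lab false P₀).countP
        (fun x => x.1 && decide (x.2 ∉ Subgroup.closure (cj (P₀ ++ P) R))) = 0 := by
      rw [List.countP_eq_zero]
      intro x hx
      rw [lab, List.mem_map] at hx
      obtain ⟨y, hy, rfl⟩ := hx
      simp
    rw [h3, h4, add_zero, zero_add]
    refine List.countP_le_length.trans ?_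
    rw [lab, List.length_map]
    exact hPlen
  · rw [Finset.disjoint_left]
    intro i hi hi'
    rw [Finset.mem_filter] at hi'
    exact hi'.2.1 hi
  · rw [Subgroup.closure_le]
    rintro x ⟨w, hw, g, hg, rfl⟩
    rw [← hPRc]
    have hw' : w ∈ Subgroup.closure {x | x ∈ (P₀ ++ P) ++ R} :=
      Subgroup.closure_mono (fun x hx => List.mem_append_left R hx) hw
    have hg' : g ∈ Subgroup.closure {x | x ∈ (P₀ ++ P) ++ R} :=
      Subgroup.closure_mono (fun x hx => List.mem_append_right (P₀ ++ P) hx) hg
    exact Subgroup.mul_mem _ (Subgroup.mul_mem _ hw' hg') (Subgroup.inv_mem _ hw')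
  · intro γ hγ h hh
    exact hnrm γ (by rw [hvT, hrange]; exact hγ) h hh
  · intro i hi
    rw [Finset.mem_union, not_or] at hi
    by_contra hcon
    exact hi.2 (by
      rw [Finset.mem_filter]
      exact ⟨Finset.mem_univ i, hi.1, hcon⟩)
  · intro h hh z hz
    exact root_of_Es σ σ' horb h (fun i j => hzero h hh _ ⟨i, j, rfl⟩) z hz

end Pool.Agent.GF
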