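import Pool.Agent.GF.Defs
import Pool.Agent.HZ.Bound

/-!
# Universal words: fixed letters and moving pairs

A moving pair `(g, g⁻¹)` can be moved past everything and conjugated by everything without changing
the other elements, by moves which involve an element of the pair.
-/

set_option autoImplicit false
set_option linter.unusedSectionVars false

namespace Pool.Agent.GF

open Pool.Agent.HZ

section
variable {G : Type*} [Group G]

/-- a moving pair with trivial product -/
def MQ (g : G) : List (Bool × G) := [(true, g), (true, g⁻¹)]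

theorem MQ_mov (g : G) : Mov (MQ g) := by
  intro x hx
  simp only [MQ, List.mem_cons, List.not_mem_nil, or_false] at hx
  rcases hx with rfl | rfl <;> rfl

theorem MQ_prod (g : G) : (vals (MQ g)).prod = 1 := by simp [MQ, vals]

theorem MQ_left (A : List (Bool × G)) (g : G) : MReach (A ++ MQ g) (MQ g ++ A) := by
  induction A with
  | nil => simpa using MReach.refl _
  | cons a A ih =>
    have h1 := ih.cons a
    have h2 := (mpass_right a (MQ g) (Or.inr (MQ_mov g))).append_right A
    rw [MQ_prod] at h2
    simp only [inv_one, one_mul, mul_one, List.append_assoc, List.cons_append, List.nil_append]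
      at h1 h2 ⊢
    exact h1.trans h2

theorem MQ_conj (a : Bool × G) (g : G) :
    MReach (a :: MQ g) (MQ (a.2 * g * a.2⁻¹) ++ [a]) := by
  have h1 := mmove_right a (MQ g) (Or.inr (MQ_mov g))
  have e : (MQ g).map (fun x => (x.1, a.2 * x.2 * a.2⁻¹)) = MQ (a.2 * g * a.2⁻¹) := by
    simp [MQ, mul_assoc]
  rw [e] at h1
  exact h1

theorem MQ_letter (A : List (Bool × G)) (a g : G) (ha : a ∈ vals A) :
    MReach (A ++ MQ g) (A ++ MQ (a * g * a⁻¹)) := by
  rw [vals, List.mem_map] at ha
  obtain ⟨b, hb, rfl⟩ := ha
  obtain ⟨A1, A2, rfl⟩ := List.append_of_mem hb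
  have h1 : MReach (A1 ++ b :: A2 ++ MQ g) (A1 ++ ([b] ++ (MQ g ++ A2))) := by
    have := (MQ_left A2 g).context (A1 ++ [b]) []
    simpa using this
  have h2 : MReach (A1 ++ ([b] ++ (MQ g ++ A2))) (A1 ++ (MQ (b.2 * g * b.2⁻¹) ++ ([b] ++ A2))) := by
    have := (MQ_conj b g).context A1 A2
    simpa using this
  have h3 : MReach (A1 ++ (MQ (b.2 * g * b.2⁻¹) ++ ([b] ++ A2)))
      (A1 ++ (([b] ++ A2) ++ MQ (b.2 * g * b.2⁻¹))) :=
    ((MQ_left ([b] ++ A2) (b.2 * g * b.2⁻¹)).symm).append_left A1
  have h4 := (h1.trans h2).trans h3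
  simpa using h4

theorem MQ_closure (A : List (Bool × G)) (w : G) (hw : w ∈ Subgroup.closure {x | x ∈ vals A})
    (g : G) : MReach (A ++ MQ g) (A ++ MQ (w * g * w⁻¹)) := by
  induction hw using Subgroup.closure_induction generalizing g with
  | mem a ha => exact MQ_letter A a g ha
  | one =>
    have e : (1 : G) * g * 1⁻¹ = g := by simp
    rw [e]
    exact MReach.refl _
  | mul u v _ _ hu hv =>
    have h1 := (hv g).trans (hu (v * g * v⁻¹))
    have e : u * (v * g * v⁻¹) * u⁻¹ = u * v * g * (u * v)⁻¹ := by group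
    rw [e] at h1
    exact h1
  | inv u _ hu =>
    have h1 := (hu (u⁻¹ * g * u⁻¹⁻¹)).symm
    have e : u * (u⁻¹ * g * u⁻¹⁻¹) * u⁻¹ = g := by group
    rw [e] at h1
    exact h1

theorem mpairs_all (A : List (Bool × G)) (ps : List (G × G))
    (h : ∀ p ∈ ps, p.1 ∈ Subgroup.closure {x | x ∈ vals A}) :
    MReach (A ++ (ps.map fun p => MQ p.2).flatten)
      ((ps.map fun p => MQ (p.1 * p.2 * p.1⁻¹)).flatten ++ A) := by
  induction ps with
  | nil => simpa using MReach.refl _
  | cons p ps ih =>
    have h0 := ih (fun q hq => h q (List.mem_cons_of_mem _ hq))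
    have h1 := (MQ_closure A p.1 (h p (List.mem_cons_self ..)) p.2).append_right
      (ps.map fun p => MQ p.2).flatten
    have h2 := (MQ_left A (p.1 * p.2 * p.1⁻¹)).append_right (ps.map fun p => MQ p.2).flatten
    have h3 := h0.append_left (MQ (p.1 * p.2 * p.1⁻¹))
    simp only [List.map_cons, List.flatten_cons, List.append_assoc] at h1 h2 h3 ⊢
    exact (h1.trans h2).trans h3

/-- the first elements of the moving pairs can be moved to the front -/
theorem mpairs_pre (A : List (Bool × G)) (ps : List (G × G))
    (h : ∀ p ∈ ps, p.1 ∈ Subgroup.closure {x | x ∈ vals A}) :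
    MPre (A ++ (ps.map fun p => MQ p.2).flatten)
      (lab true (ps.map fun p => p.1 * p.2 * p.1⁻¹)) := by
  obtain ⟨B, hB⟩ : ∃ B : List (Bool × G),
      MReach (ps.map fun p => MQ (p.1 * p.2 * p.1⁻¹)).flatten
        (lab true (ps.map fun p => p.1 * p.2 * p.1⁻¹) ++ B) := by
    have h1 : (ps.map fun p => p.1 * p.2 * p.1⁻¹).Sublist
        (ps.map fun p => Q (p.1 * p.2 * p.1⁻¹)).flatten := by
      clear h
      induction ps with
      | nil => exact List.Sublist.refl _
      | cons p ps ih =>
        simp only [List.map_cons, List.flatten_cons, Q, List.cons_append, List.nil_append]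
        exact (ih.cons _).cons_cons _
    obtain ⟨B, hB⟩ := Pre.sublist h1
    refine ⟨lab true B, ?_⟩
    have h2 := MReach.of_breach hB
    rw [lab_append] at h2
    have h3 : lab true (ps.map fun p => Q (p.1 * p.2 * p.1⁻¹)).flatten =
        (ps.map fun p => MQ (p.1 * p.2 * p.1⁻¹)).flatten := by
      rw [lab, List.map_flatten, List.map_map]
      rfl
    rw [h3] at h2
    exact h2
  refine ⟨B ++ A, ?_⟩
  rw [← List.append_assoc]
  exact (mpairs_all A ps h).trans (hB.append_right A)

end

/-! ### universal words -/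

section
variable {G : Type*} [Group G]

/-- the list of fixed letters and moving pairs -/
def mtup {q m : ℕ} (y : Fin q → G) (v : Fin m × Bool → G) : List (Bool × G) :=
  lab false ((List.finRange q).map y) ++
    lab true ((List.finRange m).map fun i => [v (i, false), v (i, true)]).flatten

/-- For all words `w i` there is a word `W` which is a moving loop for the fixed letters and the
moving pairs and becomes the product of the `w i g i (w i)⁻¹` for pairs with trivial product. -/
theorem mexists_word {q m : ℕ} (w : Fin m → FreeGroup (Fin q)) :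
    ∃ W : FreeGroup (Fin q ⊕ Fin m × Bool),
      (∀ (G : Type) [Group G] (y : Fin q → G) (v : Fin m × Bool → G),
        MLoop (mtup y v) (evw y v W)) ∧
      ∀ (G : Type) [Group G] (y : Fin q → G) (g : Fin m → G),
        evw y (fun p => if p.2 then (g p.1)⁻¹ else g p.1) W =
          ((List.finRange m).map fun i => FreeGroup.lift y (w i) * g i *
            (FreeGroup.lift y (w i))⁻¹).prod := by
  classical
  -- the quotient group
  let yb : Fin q → FreeGroup (Fin q ⊕ Fin m) := fun i => FreeGroup.of (Sum.inl i)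
  let gb : Fin m → FreeGroup (Fin q ⊕ Fin m) := fun i => FreeGroup.of (Sum.inr i)
  let π : FreeGroup (Fin q ⊕ Fin m × Bool) →* FreeGroup (Fin q ⊕ Fin m) :=
    evw yb (fun p => if p.2 then (gb p.1)⁻¹ else gb p.1)
  let T : List (Bool × FreeGroup (Fin q ⊕ Fin m × Bool)) :=
    mtup (fun i => FreeGroup.of (Sum.inl i)) (fun p => FreeGroup.of (Sum.inr p))
  let ps : List (FreeGroup (Fin q ⊕ Fin m) × FreeGroup (Fin q ⊕ Fin m)) :=
    (List.finRange m).map fun i => (FreeGroup.lift yb (w i), gb i)
  have hmap : ∀ (H : Type) [Group H] (y : Fin q → H) (v : Fin m × Bool → H),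
      mapv (evw y v) T = mtup y v := by
    intro H _ y v
    simp [T, mtup, evw, mapv, lab, Function.comp_def, List.map_flatten]
  have hπT : mapv π T = lab false ((List.finRange q).map yb) ++
      (ps.map fun p => MQ p.2).flatten := by
    rw [hmap]
    simp [mtup, ps, MQ, lab, Function.comp_def, List.map_flatten]
  have hcl : ∀ p ∈ ps, p.1 ∈ Subgroup.closure
      {x | x ∈ vals (lab false ((List.finRange q).map yb))} := by
    intro p hp
    rw [vals_lab]
    simp only [ps, List.mem_map] at hp
    obtain ⟨i, _, rfl⟩ := hp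
    show FreeGroup.lift yb (w i) ∈ _
    have h1 : (FreeGroup.lift yb (w i)) ∈ (FreeGroup.lift yb).range := ⟨w i, rfl⟩
    rw [FreeGroup.range_lift_eq_closure] at h1
    refine Subgroup.closure_mono ?_ h1
    rintro x ⟨j, rfl⟩
    simp
  have h1 := mpairs_pre (lab false ((List.finRange q).map yb)) ps hcl
  rw [← hπT] at h1
  obtain ⟨A', hA', hmapA⟩ := MPre.lift π h1
  have hmovA : Mov A' := mov_of_mapv π (by rw [hmapA]; exact mov_lab _)
  refine ⟨(vals A').prod, ?_, ?_⟩
  · intro H _ y v
    have h2 := (MLoop.map (evw y v) ((mloop_iff T (vals A').prod).2 ⟨A', hA', hmovA, rfl⟩))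
    rw [hmap] at h2
    exact h2
  · intro H _ y g
    have hfac : evw y (fun p => if p.2 then (g p.1)⁻¹ else g p.1) =
        (FreeGroup.lift (Sum.elim y g)).comp π := by
      apply FreeGroup.ext_hom
      rintro (i | ⟨i, b⟩)
      · simp [evw, π, yb]
      · cases b <;> simp [evw, π, gb]
    have h3 : π (vals A').prod = (ps.map fun p => p.1 * p.2 * p.1⁻¹).prod := by
      have h4 := congrArg vals hmapA
      rw [vals_mapv, vals_lab] at h4
      rw [← h4, List.prod_hom]
    rw [hfac, MonoidHom.comp_apply, h3, ← List.prod_hom]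
    congr 1
    simp only [ps, List.map_map]
    apply List.map_congr_left
    intro i _
    have h4 : FreeGroup.lift (Sum.elim y g) (FreeGroup.lift yb (w i)) = FreeGroup.lift y (w i) := by
      have h5 : (FreeGroup.lift (Sum.elim y g)).comp (FreeGroup.lift yb) = FreeGroup.lift y := by
        apply FreeGroup.ext_hom
        intro j
        simp [yb]
      rw [← h5]
      rfl
    simp only [Function.comp_def, map_mul, map_inv, h4]
    simp [gb]

end

/-! ### bounds -/

/-- the properties of the universal word -/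
def MUni {q m : ℕ} (w : Fin m → List (Fin q)) (W : FreeGroup (Fin q ⊕ Fin m × Bool)) : Prop :=
  (∀ (G : Type) [Group G] (y : Fin q → G) (v : Fin m × Bool → G),
    MLoop (mtup y v) (evw y v W)) ∧
    ∀ (G : Type) [Group G] (y : Fin q → G) (g : Fin m → G),
      evw y (fun p => if p.2 then (g p.1)⁻¹ else g p.1) W =
        ((List.finRange m).map fun i => ((w i).map y).prod * g i * ((w i).map y).prod⁻¹).prod

theorem exists_muni {q m : ℕ} (w : Fin m → List (Fin q)) :
    ∃ W : FreeGroup (Fin q ⊕ Fin m × Bool), MUni w W := by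
  obtain ⟨W, h1, h2⟩ := mexists_word (fun i => ((w i).map FreeGroup.of).prod)
  refine ⟨W, h1, ?_⟩
  intro G _ y g
  rw [h2]
  congr 1
  apply List.map_congr_left
  intro i _
  have e : FreeGroup.lift y ((w i).map FreeGroup.of).prod = ((w i).map y).prod := by
    rw [← List.prod_hom, List.map_map]
    congr 1
    apply List.map_congr_left
    intro j _
    simp
  rw [e]

open Classical in
theorem mexists_bound_one (q m l : ℕ) :
    ∃ D : ℕ, ∀ w : Fin m → List (Fin q), (∀ i, (w i).length ≤ l) →
      ∃ W : FreeGroup (Fin q ⊕ Fin m × Bool), W.toWord.length ≤ D ∧ MUni w W := by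
  choose W hW using fun w : Fin m → List (Fin q) => exists_muni w
  have hfin : {w : Fin m → List (Fin q) | ∀ i, (w i).length ≤ l}.Finite := by
    have h1 : {u : List (Fin q) | u.length ≤ l}.Finite := List.finite_length_le _ _
    have h2 := Set.Finite.pi (fun _ : Fin m => h1)
    refine h2.subset ?_
    intro w hw i _
    exact hw i
  refine ⟨hfin.toFinset.sup fun w => (W w).toWord.length, ?_⟩
  intro w hw
  refine ⟨W w, ?_, hW w⟩
  exact Finset.le_sup (f := fun w => (W w).toWord.length) (hfin.mem_toFinset.2 hw)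

open Classical in
/-- There is a bound for the lengths of the universal words. -/
theorem mexists_bound (Q0 m l : ℕ) :
    ∃ D : ℕ, ∀ q ≤ Q0, ∀ w : Fin m → List (Fin q), (∀ i, (w i).length ≤ l) →
      ∃ W : FreeGroup (Fin q ⊕ Fin m × Bool), W.toWord.length ≤ D ∧ MUni w W := by
  choose D hD using fun q : ℕ => mexists_bound_one q m l
  refine ⟨(Finset.range (Q0 + 1)).sup D, ?_⟩
  intro q hq w hw
  obtain ⟨W, h1, h2⟩ := hD q w hw
  refine ⟨W, h1.trans ?_, h2⟩
  exact Finset.le_sup (f := D) (Finset.mem_range.2 (by omega))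

end Pool.Agent.GF
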