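import Pool.Agent.HZ.StmI

/-!
# Local systems on punctured discs with fixed and moving punctures: definitions

Some of the `n` punctures are fixed, the others are moving.  The elements of the lists have a label:
`true` for the moving and `false` for the fixed punctures.  The elementary braid moves are allowed
at neighbours which are not both fixed.
-/

set_option autoImplicit false

namespace Pool.Agent.GF

open Matrix Pool.Agent.HZ

/-- The elementary braid moves `(a, b) → (b, b⁻¹ a b)` and `(a, b) → (a b a⁻¹, a)` at neighbours which
are not both fixed; the labels move with the elements. -/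
inductive MMove {G : Type*} [Group G] : List (Bool × G) → List (Bool × G) → Prop
  | r (P S : List (Bool × G)) (a b : Bool × G) (h : a.1 = true ∨ b.1 = true) :
      MMove (P ++ a :: b :: S) (P ++ b :: (a.1, b.2⁻¹ * a.2 * b.2) :: S)
  | l (P S : List (Bool × G)) (a b : Bool × G) (h : a.1 = true ∨ b.1 = true) :
      MMove (P ++ a :: b :: S) (P ++ (b.1, a.2 * b.2 * a.2⁻¹) :: a :: S)

/-- the orbit -/
def MReach {G : Type*} [Group G] (L L' : List (Bool × G)) : Prop := Relation.ReflTransGen MMove L L'

/-- the product of the beginning of a list in the orbit, if this beginning consists of moving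
elements -/
def MLoop {G : Type*} [Group G] (L : List (Bool × G)) (γ : G) : Prop :=
  ∃ A B : List (Bool × G), MReach L (A ++ B) ∧ (∀ x ∈ A, x.1 = true) ∧ (A.map Prod.snd).prod = γ

/-- the standard generators of the fundamental group of the disc with `n` punctures, with labels: the
punctures in `Φ` are fixed, the others are moving -/
def lstd {n : ℕ} (Φ : Finset (Fin n)) : List (Bool × FreeGroup (Fin n)) :=
  (List.finRange n).map fun i => (decide (i ∉ Φ), FreeGroup.of i)

/-- Simple closed curves around moving punctures: products of the beginning of a list in the orbit of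
the standard generators, if this beginning consists of moving elements. -/
def IsMovingLoop {n : ℕ} (Φ : Finset (Fin n)) (γ : FreeGroup (Fin n)) : Prop := MLoop (lstd Φ) γ

/-- `β` is the automorphism of the free group given by a mixed braid: the images of the standard
generators, with the same labels, are a list in the orbit of the standard generators. -/
def IsMBraid {n : ℕ} (Φ : Finset (Fin n)) (β : FreeGroup (Fin n) →* FreeGroup (Fin n)) : Prop :=
  MReach (lstd Φ) ((lstd Φ).map fun x => (x.1, β x.2))

variable {r : ℕ}

/-- the orbit of the character of a representation of the free group under the mixed braids is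
finite -/
def FinMOrb {n : ℕ} (Φ : Finset (Fin n)) (ρ : FreeGroup (Fin n) →* GL (Fin r) ℂ) : Prop :=
  {χ : FreeGroup (Fin n) → ℂ | ∃ β : FreeGroup (Fin n) →* FreeGroup (Fin n), IsMBraid Φ β ∧
    χ = fun γ => (ρ (β γ) : Matrix (Fin r) (Fin r) ℂ).trace}.Finite

/-- the fixed punctures of the subdisc with the punctures in `T` -/
def res {n : ℕ} (Φ T : Finset (Fin n)) : Finset (Fin T.card) :=
  Finset.univ.filter fun j => T.orderEmbOfFin rfl j ∈ Φ

end Pool.Agent.GF
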